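import Mathlib

/-!
MP_1b8d5d_pr, proofs row 581, section 8: good scales.
-/

set_option autoImplicit false

namespace Pool.Agent.W_1b8d5d_np

open Finset

/-- `bb n = max (1, max of beta on [0, n])`. -/
noncomputable def rmax (β : ℕ → ℝ) (n : ℕ) : ℝ := max 1 ((range (n + 1)).sup' nonempty_range_add_one β)

theorem one_le_rmax (β : ℕ → ℝ) (n : ℕ) : 1 ≤ rmax β n := le_max_left _ _

theorem le_rmax (β : ℕ → ℝ) {r n : ℕ} (h : r ≤ n) : β r ≤ rmax β n :=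
  (le_sup' β (mem_range.2 (Nat.lt_succ_of_le h))).trans (le_max_right _ _)

theorem rmax_mono (β : ℕ → ℝ) : Monotone (rmax β) := by
  intro i j hij
  unfold rmax
  refine max_le_max le_rfl ?_
  exact sup'_mono β (range_subset_range.2 (by omega)) nonempty_range_add_one

theorem rmax_le {β : ℕ → ℝ} {n : ℕ} {K : ℝ} (h1 : 1 ≤ K) (h : ∀ r ≤ n, β r ≤ K) : rmax β n ≤ K := by
  unfold rmax
  refine max_le h1 (sup'_le _ _ fun r hr => h r ?_)
  rw [mem_range] at hr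
  omega

theorem exists_rmax (β : ℕ → ℝ) {n : ℕ} (h : 1 < rmax β n) : ∃ r ≤ n, β r = rmax β n ∧ rmax β r = rmax β n := by
  obtain ⟨r, hr, hs⟩ := exists_mem_eq_sup' (nonempty_range_add_one (n := n)) β
  have h1 : rmax β n = (range (n + 1)).sup' nonempty_range_add_one β := by
    unfold rmax at h ⊢
    rcases max_cases 1 ((range (n + 1)).sup' nonempty_range_add_one β) with h2 | h2
    · rw [h2.1] at h
      exact absurd h (lt_irrefl _)
    · exact h2.1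
  have hr' : r ≤ n := by
    rw [mem_range] at hr
    omega
  have h2 : β r = rmax β n := by rw [h1, hs]
  exact ⟨r, hr', h2, le_antisymm (rmax_mono β hr') (h2 ▸ le_rmax β le_rfl)⟩

/-- Section 8.  There are arbitrarily large scales `n` at which the maximum is attained and grows slowly. -/
theorem good_scales (β : ℕ → ℝ) {C θ : ℝ} (hθ : θ < 7 / 10) (hθ0 : 0 ≤ θ)
    (hpow : ∀ n : ℕ, 1 ≤ n → rmax β n ≤ C * (n : ℝ) ^ θ) (hunb : ∀ K : ℝ, ∃ n, K < rmax β n)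
    {m : ℕ} (hm : 2 ≤ m) (n₀ : ℕ) :
    ∃ n, n₀ ≤ n ∧ β n = rmax β n ∧ 1 < rmax β n ∧ rmax β (m * n) ≤ (m : ℝ) ^ ((7 : ℝ) / 10) * rmax β n := by
  by_contra hcon
  push Not at hcon
  have hm0 : (0 : ℝ) < m := by positivity
  have hm1 : (1 : ℝ) < m := by exact_mod_cast (by omega : 1 < m)
  obtain ⟨n1, hn1⟩ := hunb (rmax β n₀)
  have h1 : 1 < rmax β n1 := (one_le_rmax β n₀).trans_lt hn1
  obtain ⟨r1, hr1, hb1, hb1'⟩ := exists_rmax β h1
  have hr1pos : n₀ < r1 := by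
    by_contra hle
    push Not at hle
    have := rmax_mono β hle
    linarith
  have key : ∀ j : ℕ, ∃ r : ℕ, n₀ ≤ r ∧ 1 ≤ r ∧ r ≤ m ^ j * r1 ∧ β r = rmax β r ∧
      ((m : ℝ) ^ ((7 : ℝ) / 10)) ^ j * rmax β r1 ≤ rmax β r := by
    intro j
    induction j with
    | zero => exact ⟨r1, hr1pos.le, by omega, by simp, by rw [hb1, hb1'], by simp⟩
    | succ j ih =>
      obtain ⟨r, hr0, hr1', hrm, hbr, hgr⟩ := ih
      have hA : (1 : ℝ) ≤ (m : ℝ) ^ ((7 : ℝ) / 10) := Real.one_le_rpow hm1.le (by norm_num)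
      have hgt : rmax β n₀ < rmax β r := by
        have h2 : (1 : ℝ) ≤ ((m : ℝ) ^ ((7 : ℝ) / 10)) ^ j := one_le_pow₀ hA
        have h3 : rmax β n₀ < rmax β r1 := by rw [hb1']; exact hn1
        have h4 : 0 < rmax β r1 := by linarith [one_le_rmax β r1]
        nlinarith
      have h5 : 1 < rmax β r := (one_le_rmax β n₀).trans_lt hgt
      have h6 := hcon r hr0 hbr h5
      have h7 : rmax β r < rmax β (m * r) := by nlinarith [one_le_rmax β r]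
      obtain ⟨r', hr', hb', hb''⟩ := exists_rmax β (h5.trans h7)
      have hr'pos : n₀ < r' := by
        by_contra hle
        push Not at hle
        have := rmax_mono β hle
        linarith
      refine ⟨r', hr'pos.le, by omega, ?_, by rw [hb', hb''], ?_⟩
      · calc r' ≤ m * r := hr'
          _ ≤ m * (m ^ j * r1) := Nat.mul_le_mul_left m hrm
          _ = m ^ (j + 1) * r1 := by ring
      · rw [hb'', pow_succ]
        calc ((m : ℝ) ^ ((7 : ℝ) / 10)) ^ j * (m : ℝ) ^ ((7 : ℝ) / 10) * rmax β r1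
            = (m : ℝ) ^ ((7 : ℝ) / 10) * (((m : ℝ) ^ ((7 : ℝ) / 10)) ^ j * rmax β r1) := by ring
          _ ≤ (m : ℝ) ^ ((7 : ℝ) / 10) * rmax β r := by gcongr
          _ ≤ rmax β (m * r) := h6.le
  have hC : 0 < C := by
    have := hpow 1 le_rfl
    have h2 := one_le_rmax β 1
    simp at this
    linarith
  have hr1R : (0 : ℝ) < r1 := by
    have : 0 < r1 := by omega
    exact_mod_cast this
  -- comparison
  have hq : (1 : ℝ) < (m : ℝ) ^ ((7 : ℝ) / 10 - θ) := Real.one_lt_rpow hm1 (by linarith)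
  obtain ⟨j, hj⟩ := pow_unbounded_of_one_lt (C * (r1 : ℝ) ^ θ) hq
  obtain ⟨r, -, hr1', hrm, -, hgr⟩ := key j
  have h8 := hpow r hr1'
  have hrR : (r : ℝ) ≤ (m : ℝ) ^ j * r1 := by exact_mod_cast hrm
  have h9 : (r : ℝ) ^ θ ≤ ((m : ℝ) ^ θ) ^ j * (r1 : ℝ) ^ θ := by
    calc (r : ℝ) ^ θ ≤ ((m : ℝ) ^ j * r1) ^ θ := Real.rpow_le_rpow (by positivity) hrR hθ0
      _ = ((m : ℝ) ^ j) ^ θ * (r1 : ℝ) ^ θ := Real.mul_rpow (by positivity) hr1R.le
      _ = ((m : ℝ) ^ θ) ^ j * (r1 : ℝ) ^ θ := by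
        rw [← Real.rpow_natCast, ← Real.rpow_natCast, ← Real.rpow_mul hm0.le, ← Real.rpow_mul hm0.le,
          mul_comm (j : ℝ) θ]
  have h10 : ((m : ℝ) ^ ((7 : ℝ) / 10)) ^ j = ((m : ℝ) ^ ((7 : ℝ) / 10 - θ)) ^ j * ((m : ℝ) ^ θ) ^ j := by
    rw [← mul_pow, ← Real.rpow_add hm0]
    congr 2
    ring
  have h11 : 0 < ((m : ℝ) ^ θ) ^ j := by positivity
  have h12 : ((m : ℝ) ^ ((7 : ℝ) / 10)) ^ j ≤ C * (((m : ℝ) ^ θ) ^ j * (r1 : ℝ) ^ θ) := by
    calc ((m : ℝ) ^ ((7 : ℝ) / 10)) ^ j ≤ ((m : ℝ) ^ ((7 : ℝ) / 10)) ^ j * rmax β r1 :=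
          le_mul_of_one_le_right (by positivity) (one_le_rmax β r1)
      _ ≤ rmax β r := hgr
      _ ≤ C * (r : ℝ) ^ θ := h8
      _ ≤ C * (((m : ℝ) ^ θ) ^ j * (r1 : ℝ) ^ θ) := by gcongr
  rw [h10] at h12
  have h13 : (((m : ℝ) ^ ((7 : ℝ) / 10 - θ)) ^ j - C * (r1 : ℝ) ^ θ) * ((m : ℝ) ^ θ) ^ j ≤ 0 := by
    linarith
  have h14 : 0 < (((m : ℝ) ^ ((7 : ℝ) / 10 - θ)) ^ j - C * (r1 : ℝ) ^ θ) * ((m : ℝ) ^ θ) ^ j :=
    mul_pos (by linarith) h11
  linarith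

end Pool.Agent.W_1b8d5d_np
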