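import Mathlib

/-!
MP_1b8d5d_pr, proofs row 581, section 9: rounding with hysteresis, and the number of sequences with few changes.
Any dimension: `E` is the space of the transversal coordinates, `α` a net of points `pt a`.
-/

set_option autoImplicit false

namespace Pool.Agent.W_1b8d5d_np

open Finset

section hyst

variable {α E : Type*} [NormedAddCommGroup E]

open Classical in
/-- The centres: keep the centre as long as the distance is at most `2 e`, otherwise round. -/
noncomputable def hy (pt : α → E) (rnd : E → α) (y : ℕ → E) (e : ℝ) (a₀ : α) : ℕ → α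
  | 0 => a₀
  | i + 1 => if ‖y (i + 1) - pt (hy pt rnd y e a₀ i)‖ ≤ 2 * e then hy pt rnd y e a₀ i else rnd (y (i + 1))

open Classical in
/-- The number of changes of a sequence up to `m`. -/
noncomputable def chg (c : ℕ → α) (m : ℕ) : ℕ := ((range m).filter fun i => c (i + 1) ≠ c i).card

open Classical in
theorem chg_succ (c : ℕ → α) (m : ℕ) : chg c (m + 1) = chg c m + if c (m + 1) ≠ c m then 1 else 0 := by
  unfold chg
  rw [range_add_one, filter_insert]
  split_ifs with h
  · rw [card_insert_of_notMem (by simp)]
  · rfl

theorem chg_congr {c c' : ℕ → α} {m : ℕ} (h : ∀ i ≤ m, c i = c' i) : chg c m = chg c' m := by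
  classical
  unfold chg
  congr 1
  refine filter_congr fun i hi => ?_
  rw [mem_range] at hi
  rw [h i (by omega), h (i + 1) (by omega)]

theorem hyst (pt : α → E) (rnd : E → α) {y : ℕ → E} {e : ℝ} (he : 0 < e)
    (hr : ∀ x, ‖x - pt (rnd x)‖ ≤ e / 2) {a₀ : α} (h0 : ‖y 0 - pt a₀‖ ≤ e / 2) (m : ℕ) :
    (∀ i, ‖y i - pt (hy pt rnd y e a₀ i)‖ ≤ 2 * e) ∧
      3 / 2 * e * chg (hy pt rnd y e a₀) m ≤ ∑ i ∈ range m, ‖y (i + 1) - y i‖ + e / 2 := by
  classical
  have hzero : hy pt rnd y e a₀ 0 = a₀ := rfl
  have hsucc : ∀ i, hy pt rnd y e a₀ (i + 1)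
      = if ‖y (i + 1) - pt (hy pt rnd y e a₀ i)‖ ≤ 2 * e then hy pt rnd y e a₀ i
        else rnd (y (i + 1)) := fun i => rfl
  constructor
  · intro i
    cases i with
    | zero =>
      rw [hzero]
      linarith
    | succ i =>
      rw [hsucc]
      split_ifs with h
      · exact h
      · have := hr (y (i + 1))
        linarith
  · have key : ∀ m, 3 / 2 * e * chg (hy pt rnd y e a₀) m + ‖y m - pt (hy pt rnd y e a₀ m)‖ ≤
        ∑ i ∈ range m, ‖y (i + 1) - y i‖ + e / 2 := by
      intro m
      induction m with
      | zero => simp [chg, hzero, h0]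
      | succ m ih =>
        rw [sum_range_succ, chg_succ]
        have h1 : ‖y (m + 1) - pt (hy pt rnd y e a₀ m)‖
            ≤ ‖y m - pt (hy pt rnd y e a₀ m)‖ + ‖y (m + 1) - y m‖ := by
          have h2 : y (m + 1) - pt (hy pt rnd y e a₀ m)
              = (y m - pt (hy pt rnd y e a₀ m)) + (y (m + 1) - y m) := by abel
          rw [h2]
          exact norm_add_le _ _
        by_cases h : ‖y (m + 1) - pt (hy pt rnd y e a₀ m)‖ ≤ 2 * e
        · have h3 : hy pt rnd y e a₀ (m + 1) = hy pt rnd y e a₀ m := by rw [hsucc, if_pos h]
          rw [h3]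
          simp only [ne_eq, not_true_eq_false, if_false, add_zero]
          linarith
        · have h3 : hy pt rnd y e a₀ (m + 1) = rnd (y (m + 1)) := by rw [hsucc, if_neg h]
          have h4 : ‖y (m + 1) - pt (hy pt rnd y e a₀ (m + 1))‖ ≤ e / 2 := by rw [h3]; exact hr _
          push Not at h
          have h5 : (((if hy pt rnd y e a₀ (m + 1) ≠ hy pt rnd y e a₀ m then 1 else 0 : ℕ) : ℝ)) ≤ 1 := by
            split_ifs <;> norm_num
          push_cast
          push_cast at h5
          nlinarith
    have h1 := key m
    have h2 := norm_nonneg (y m - pt (hy pt rnd y e a₀ m))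
    linarith

end hyst

section count

variable {α : Type*}

open Classical in
/-- The sequences which start at `a₀`, have values in `A`, at most `k` changes, and are constant from `m` on. -/
noncomputable def seqs (a₀ : α) (A : Finset α) : ℕ → ℕ → Finset (ℕ → α)
  | 0, _ => {fun _ => a₀}
  | m + 1, 0 => seqs a₀ A m 0
  | m + 1, k + 1 => seqs a₀ A m (k + 1) ∪
      (seqs a₀ A m k ×ˢ A).image fun q i => if i ≤ m then q.1 i else q.2

open Classical in
theorem card_seqs (a₀ : α) (A : Finset α) (m k : ℕ) : (seqs a₀ A m k).card ≤ (1 + A.card * m) ^ k := by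
  induction m generalizing k with
  | zero =>
    rw [seqs]
    simp
  | succ m ih =>
    cases k with
    | zero =>
      rw [seqs]
      simpa using ih 0
    | succ k =>
      rw [seqs]
      calc _ ≤ (seqs a₀ A m (k + 1)).card + (seqs a₀ A m k ×ˢ A).card :=
            (card_union_le _ _).trans (Nat.add_le_add_left card_image_le _)
        _ ≤ (1 + A.card * m) ^ (k + 1) + (1 + A.card * m) ^ k * A.card := by
            rw [card_product]
            exact Nat.add_le_add (ih _) (Nat.mul_le_mul_right _ (ih _))
        _ = (1 + A.card * m) ^ k * (1 + A.card * (m + 1)) := by ring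
        _ ≤ (1 + A.card * (m + 1)) ^ k * (1 + A.card * (m + 1)) :=
            Nat.mul_le_mul_right _ (Nat.pow_le_pow_left (by nlinarith) _)
        _ = (1 + A.card * (m + 1)) ^ (k + 1) := by ring

open Classical in
theorem mem_seqs {a₀ : α} {A : Finset α} {c : ℕ → α} (h0 : c 0 = a₀) {m k : ℕ} (hA : ∀ i ≤ m, c i ∈ A)
    (hk : chg c m ≤ k) : (fun i => c (min i m)) ∈ seqs a₀ A m k := by
  induction m generalizing k with
  | zero =>
    rw [seqs, mem_singleton]
    funext i
    simp [h0]
  | succ m ih =>
    rw [chg_succ] at hk
    by_cases h : c (m + 1) = c m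
    · have h1 : (fun i => c (min i (m + 1))) = fun i => c (min i m) := by
        funext i
        rcases le_or_gt i m with hi | hi
        · rw [min_eq_left hi, min_eq_left (by omega)]
        · rw [min_eq_right hi.le, min_eq_right (by omega), h]
      have h2 : (fun i => c (min i m)) ∈ seqs a₀ A m k :=
        ih (fun i hi => hA i (by omega)) (by rw [if_neg (by simpa using h)] at hk; omega)
      rw [h1]
      cases k with
      | zero => rwa [seqs]
      | succ k =>
        rw [seqs]
        exact mem_union_left _ h2
    · rw [if_pos h] at hk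
      cases k with
      | zero => omega
      | succ k =>
        rw [seqs]
        refine mem_union_right _ (mem_image.2 ⟨(fun i => c (min i m), c (m + 1)), ?_, ?_⟩)
        · rw [mem_product]
          exact ⟨ih (fun i hi => hA i (by omega)) (by omega), hA _ le_rfl⟩
        · funext i
          dsimp only
          split_ifs with hi
          · rw [min_eq_left hi, min_eq_left (by omega)]
          · rw [min_eq_right (by omega)]

open Classical in
/-- All values of the sequences are in `A`. -/
theorem seqs_val {a₀ : α} {A : Finset α} (hA : a₀ ∈ A) {m k : ℕ} {s : ℕ → α} (hs : s ∈ seqs a₀ A m k)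
    (i : ℕ) : s i ∈ A := by
  induction m generalizing k s i with
  | zero =>
    rw [seqs, mem_singleton] at hs
    rw [hs]
    exact hA
  | succ m ih =>
    cases k with
    | zero =>
      rw [seqs] at hs
      exact ih hs i
    | succ k =>
      rw [seqs, mem_union, mem_image] at hs
      rcases hs with hs | ⟨q, hq, rfl⟩
      · exact ih hs i
      · rw [mem_product] at hq
        dsimp only
        split_ifs with hi
        · exact ih hq.1 i
        · exact hq.2

end count

end Pool.Agent.W_1b8d5d_np
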