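import Pool.Agent.W_1b8d5d_h85.Basic
import Pool.Agent.W_1b8d5d_np.R9Hyst

/-!
MP_1b8d5d_pr, proofs row 581, section 9: the abstract contradiction.
`X i a` = excess of block `i` (from level `i n` to level `(i+1) n`) with both end points at the centre `a`, in units of `B`.
`G j a` = the localised event for block `2 j`.
-/

set_option autoImplicit false

namespace Pool.Agent.W_1b8d5d_np

open Finset Pool.Agent.W_1b8d5d_h85

open Classical in
/-- The deterministic estimate for one sequence. -/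
theorem sum_unchanged {α : Type*} (m k : ℕ) (s : ℕ → α) (hs : chg s m ≤ k) (x : ℕ → ℝ) {δ : ℝ} (hδ : 0 ≤ δ)
    (hx : ∀ i < m, -δ ≤ x i) (g : ℕ → Prop) (hg : ∀ j < m / 2, g j → 1 / 2 ≤ x (2 * j))
    (hcard : m / 2 < 8 * ((range (m / 2)).filter g).card) :
    1 / 2 * (((m / 2 : ℕ) : ℝ) / 8 - k) - δ * m ≤
      ∑ i ∈ (range m).filter (fun i => s (i + 1) = s i), x i := by
  set U := (range m).filter (fun i => s (i + 1) = s i) with hU
  set D := ((range (m / 2)).filter g).image (fun j => 2 * j) with hD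
  set N := U.filter (fun i => i ∈ D) with hN
  have hDcard : D.card = ((range (m / 2)).filter g).card :=
    card_image_of_injective _ fun a b h => by
      have h' : 2 * a = 2 * b := h
      omega
  have hDsub : D ⊆ range m := by
    intro i hi
    rw [hD, mem_image] at hi
    obtain ⟨j, hj, rfl⟩ := hi
    rw [mem_filter, mem_range] at hj
    rw [mem_range]
    omega
  have hNcard : D.card ≤ N.card + chg s m := by
    have h1 : D ⊆ N ∪ (range m).filter fun i => s (i + 1) ≠ s i := by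
      intro i hi
      rw [mem_union]
      by_cases h : s (i + 1) = s i
      · left
        rw [hN, mem_filter, hU, mem_filter]
        exact ⟨⟨hDsub hi, h⟩, hi⟩
      · right
        rw [mem_filter]
        exact ⟨hDsub hi, h⟩
    refine (card_le_card h1).trans ((card_union_le _ _).trans ?_)
    exact le_rfl
  have hsplit : ∑ i ∈ U, x i = ∑ i ∈ N, x i + ∑ i ∈ U.filter (fun i => i ∉ D), x i := by
    rw [hN]
    exact (sum_filter_add_sum_filter_not U (fun i => i ∈ D) x).symm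
  have h2 : (N.card : ℝ) * (1 / 2) ≤ ∑ i ∈ N, x i := by
    rw [← nsmul_eq_mul]
    refine card_nsmul_le_sum _ _ _ fun i hi => ?_
    rw [hN, mem_filter, hD, mem_image] at hi
    obtain ⟨-, j, hj, rfl⟩ := hi
    rw [mem_filter, mem_range] at hj
    exact hg j hj.1 hj.2
  have h3 : -(δ * m) ≤ ∑ i ∈ U.filter (fun i => i ∉ D), x i := by
    have h4 : ∀ i ∈ U.filter (fun i => i ∉ D), -δ ≤ x i := by
      intro i hi
      rw [mem_filter, hU, mem_filter, mem_range] at hi
      exact hx i hi.1.1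
    have h5 := card_nsmul_le_sum _ _ _ h4
    rw [nsmul_eq_mul] at h5
    have h6 : ((U.filter (fun i => i ∉ D)).card : ℝ) ≤ m := by
      have h7 : (U.filter (fun i => i ∉ D)).card ≤ (range m).card :=
        card_le_card ((filter_subset _ _).trans (filter_subset _ _))
      rw [card_range] at h7
      exact_mod_cast h7
    nlinarith
  rw [hsplit]
  have h8 : (((m / 2 : ℕ) : ℝ)) ≤ 8 * (D.card : ℝ) := by
    rw [hDcard]
    exact_mod_cast hcard.le
  have h9 : (D.card : ℝ) ≤ N.card + k := by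
    have h10 : D.card ≤ N.card + k := hNcard.trans (Nat.add_le_add_left hs _)
    exact_mod_cast h10
  linarith

open Classical in
/-- The contradiction. -/
theorem endgame {Ω : Type} [Fintype Ω] [Nonempty Ω] {α : Type*} (m k : ℕ) (S : Finset (ℕ → α)) (A : Finset α)
    (hSA : ∀ s ∈ S, ∀ i, s i ∈ A) (X : ℕ → α → Ω → ℝ) (G : ℕ → α → Ω → Prop) {δ U ρ : ℝ} (hδ : 0 ≤ δ)
    (Y : Ω → Prop) (hY : 1 / 5 ≤ Pr Y)
    (hYs : ∀ ω, Y ω → ∃ s ∈ S, chg s m ≤ k ∧
      ∑ i ∈ (range m).filter (fun i => s (i + 1) = s i), X i (s i) ω ≤ U)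
    (hL : Pr (fun ω => ∃ i < m, ∃ a ∈ A, X i a ω < -δ) ≤ 1 / 25)
    (hG : Pr (fun ω => ∃ j < m / 2, ∃ a ∈ A, G j a ω ∧ X (2 * j) a ω < 1 / 2) ≤ 1 / 25)
    (hC : ∀ s ∈ S, Pr (fun ω => 8 * ((range (m / 2)).filter fun j => G j (s (2 * j)) ω).card ≤ m / 2) ≤ ρ)
    (hρ : S.card * ρ ≤ 1 / 25) (hU : U < 1 / 2 * (((m / 2 : ℕ) : ℝ) / 8 - k) - δ * m) : False := by
  have h1 : Pr (fun ω => ∃ s ∈ S,
      8 * ((range (m / 2)).filter fun j => G j (s (2 * j)) ω).card ≤ m / 2) ≤ 1 / 25 := by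
    refine (Pr_exists_le S (fun s ω =>
      8 * ((range (m / 2)).filter fun j => G j (s (2 * j)) ω).card ≤ m / 2)).trans ?_
    refine (sum_le_card_nsmul S _ ρ hC).trans ?_
    rw [nsmul_eq_mul]
    exact hρ
  have h2 : ∀ ω, Y ω → ((∃ i < m, ∃ a ∈ A, X i a ω < -δ) ∨
      (∃ j < m / 2, ∃ a ∈ A, G j a ω ∧ X (2 * j) a ω < 1 / 2)) ∨
      (∃ s ∈ S, 8 * ((range (m / 2)).filter fun j => G j (s (2 * j)) ω).card ≤ m / 2) := by
    intro ω hω
    by_contra hcon
    push Not at hcon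
    obtain ⟨⟨hA, hB⟩, hD⟩ := hcon
    obtain ⟨s, hs, hk, hsum⟩ := hYs ω hω
    have h3 := sum_unchanged m k s hk (fun i => X i (s i) ω) hδ (fun i hi => hA i hi _ (hSA s hs i))
      (fun j => G j (s (2 * j)) ω) (fun j hj hg => hB j hj _ (hSA s hs _) hg) (hD s hs)
    linarith
  have h3 := Pr_mono h2
  have h4 := Pr_or (Ω := Ω) (fun ω => (∃ i < m, ∃ a ∈ A, X i a ω < -δ) ∨
      (∃ j < m / 2, ∃ a ∈ A, G j a ω ∧ X (2 * j) a ω < 1 / 2))
      (fun ω => ∃ s ∈ S, 8 * ((range (m / 2)).filter fun j => G j (s (2 * j)) ω).card ≤ m / 2)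
  have h5 := Pr_or (Ω := Ω) (fun ω => ∃ i < m, ∃ a ∈ A, X i a ω < -δ)
      (fun ω => ∃ j < m / 2, ∃ a ∈ A, G j a ω ∧ X (2 * j) a ω < 1 / 2)
  linarith

end Pool.Agent.W_1b8d5d_np
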