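import Pool.Agent.W_1b8d5d_h85.Model

/-!
MP_1b8d5d_pr, proofs row 581, section 9: few of many independent events.
-/

set_option autoImplicit false

namespace Pool.Agent.W_1b8d5d_np

open Finset Pool.Agent.W_1b8d5d_h85

open Classical in
/-- `1/2` on the event, `1` off the event. -/
noncomputable def half (p : Prop) : ℝ := if p then 1 / 2 else 1

theorem half_pos (p : Prop) : 0 < half p := by
  unfold half
  split_ifs <;> norm_num

theorem half_le (p : Prop) : half p ≤ 1 := by
  unfold half
  split_ifs <;> norm_num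

open Classical in
theorem prod_half {s : Finset ℕ} (p : ℕ → Prop) :
    ∏ i ∈ s, half (p i) = (1 / 2 : ℝ) ^ (s.filter p).card := by
  unfold half
  rw [prod_ite, prod_const, prod_const_one, mul_one]

theorem Ex_half {Ω : Type} [Fintype Ω] [Nonempty Ω] (p : Ω → Prop) :
    Ex (fun ω => half (p ω)) = 1 - Pr p / 2 := by
  classical
  have h : ∀ ω, half (p ω) = 1 - 1 / 2 * (if p ω then (1 : ℝ) else 0) := by
    intro ω
    unfold half
    split_ifs <;> norm_num
  rw [Ex_congr h, Ex_sub (fun _ => (1 : ℝ)), Ex_const, Ex_mul_left, Pr_def]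
  ring

open Classical in
/-- At most `K / 8` of `K` independent events of probability `≥ 2/5`. -/
theorem chern {Ω : Type} [Fintype Ω] [Nonempty Ω] (K : ℕ) (p : ℕ → Ω → Prop)
    (hp : ∀ j < K, 2 / 5 ≤ Pr (p j))
    (hind : ∀ j < K, Ex (fun ω => (∏ i ∈ range j, half (p i ω)) * half (p j ω))
      = Ex (fun ω => ∏ i ∈ range j, half (p i ω)) * Ex (fun ω => half (p j ω))) :
    Pr (fun ω => 8 * ((range K).filter fun i => p i ω).card ≤ K) ≤ (9 / 10) ^ K := by
  have h1 : ∀ j ≤ K, Ex (fun ω => ∏ i ∈ range j, half (p i ω)) ≤ (4 / 5) ^ j := by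
    intro j
    induction j with
    | zero =>
      intro _
      simp [Ex_const]
    | succ j ih =>
      intro hj
      have h2 := hind j (by omega)
      simp only [prod_range_succ]
      rw [h2, Ex_half, pow_succ]
      have h3 := hp j (by omega)
      have h4 := ih (by omega)
      have h5 : 0 ≤ Ex (fun ω => ∏ i ∈ range j, half (p i ω)) :=
        Ex_nonneg fun ω => prod_nonneg fun i _ => (half_pos _).le
      have h6 := Pr_le_one (p j)
      exact mul_le_mul h4 (by linarith) (by linarith) (by positivity)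
  have h2 : (0 : ℝ) < (8 / 9) ^ K := by positivity
  have h3 := markov (f := fun ω => ∏ i ∈ range K, half (p i ω))
    (fun ω => prod_nonneg fun i _ => (half_pos _).le) h2
  refine (Pr_mono fun ω hω => ?_).trans (h3.trans ?_)
  · show (8 / 9 : ℝ) ^ K ≤ ∏ i ∈ range K, half (p i ω)
    rw [prod_half]
    calc (8 / 9 : ℝ) ^ K ≤ (8 / 9 : ℝ) ^ (8 * ((range K).filter fun i => p i ω).card) :=
          pow_le_pow_of_le_one (by norm_num) (by norm_num) hω
      _ = ((8 / 9 : ℝ) ^ 8) ^ ((range K).filter fun i => p i ω).card := by rw [pow_mul]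
      _ ≤ (1 / 2 : ℝ) ^ ((range K).filter fun i => p i ω).card :=
          pow_le_pow_left₀ (by positivity) (by norm_num) _
  · rw [div_le_iff₀ h2, ← mul_pow]
    refine (h1 K le_rfl).trans (le_of_eq ?_)
    norm_num

open Classical in
/-- The same for events of a random environment which depend on disjoint sets of edges. -/
theorem chern_mdl {a b : ℝ} (M : Mdl a b) {R : ℝ}
    (hind : ∀ A B : Set Edge, Disjoint A B → (∀ e ∈ A ∪ B, nm e.1 ≤ R) →
      ∀ F G : Env → ℝ, DependsOn F A → DependsOn G B →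
        M.E (fun τ => F τ * G τ) = M.E F * M.E G)
    (K : ℕ) (A : ℕ → Set Edge) (hA : ∀ i j, i < j → j < K → Disjoint (A i) (A j))
    (hR : ∀ i < K, ∀ e ∈ A i, nm e.1 ≤ R) (p : ℕ → Env → Prop) (hp : ∀ i < K, DependsOn (p i) (A i))
    (h25 : ∀ i < K, 2 / 5 ≤ M.P (p i)) :
    M.P (fun τ => 8 * ((range K).filter fun i => p i τ).card ≤ K) ≤ (9 / 10) ^ K := by
  refine chern (Ω := M.Ω) K (fun i ω => p i (M.env ω)) h25 fun j hj => ?_
  have hdep : DependsOn (fun τ : Env => ∏ i ∈ range j, half (p i τ)) (⋃ i ∈ Set.Iio j, A i) := by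
    intro τ τ' h
    refine prod_congr rfl fun i hi => ?_
    rw [mem_range] at hi
    have h1 : p i τ = p i τ' := hp i (by omega) fun e he => h e (Set.mem_biUnion (by exact hi) he)
    rw [h1]
  have hdep' : DependsOn (fun τ : Env => half (p j τ)) (A j) := by
    intro τ τ' h
    have h1 : p j τ = p j τ' := hp j hj h
    show half (p j τ) = half (p j τ')
    rw [h1]
  refine hind (⋃ i ∈ Set.Iio j, A i) (A j) ?_ ?_ _ _ hdep hdep'
  · rw [Set.disjoint_iUnion₂_left]
    intro i hi
    exact hA i j hi hj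
  · rintro e (he | he)
    · rw [Set.mem_iUnion₂] at he
      obtain ⟨i, hi, he⟩ := he
      have hi' : i < j := hi
      exact hR i (by omega) e he
    · exact hR j hj e he

end Pool.Agent.W_1b8d5d_np
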