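import Pool.Agent.W_1b8d5d_np.Med1

/-!
MP_1b8d5d_pr, [NP]: confinement (deterministic, on the event `LT`), walks inside a set of edges.
-/

set_option autoImplicit false

namespace Pool.Agent.W_1b8d5d_np

open Finset Filter Topology
open Pool.Agent.W_1b8d5d_h85

variable {c : Cor} {μ : ℝ × ℝ → ℝ}

/-- The error for walks of cost at most `s`. -/
noncomputable def ce (c : Cor) (h s : ℝ) : ℝ := er h (4 * c.C * (s + h ^ 16))

theorem ce_nonneg {h s : ℝ} (h1 : 1 ≤ h) : 0 ≤ ce c h s := by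
  unfold ce er
  have h0 : 0 ≤ h := by linarith
  positivity

private theorem Conf_ce {h s : ℝ} (k l : ℕ) (hk : 16 ≤ k) (hkl : k + 1 = l + l) (h8 : 8 * c.C ≤ h) (h2 : 2 ≤ h)
    (hs : s ≤ h ^ k) : ce c h s ≤ h ^ (l + 8) := by
  have hC := c.one_le_C
  have h1 : 1 ≤ h := by linarith
  have h0 : 0 ≤ h := by linarith
  have e1 : h ^ 16 ≤ h ^ k := pow_le_pow_right₀ h1 hk
  have hk0 : 0 ≤ h ^ k := by positivity
  have e2 : 4 * c.C * (s + h ^ 16) ≤ (h ^ l) ^ 2 := by
    have e3 : 4 * c.C * (s + h ^ 16) ≤ 4 * c.C * (h ^ k + h ^ k) :=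
      mul_le_mul_of_nonneg_left (by linarith) (by linarith)
    have e4 : 8 * c.C * h ^ k ≤ h * h ^ k := mul_le_mul_of_nonneg_right h8 hk0
    have e5 : h * h ^ k = (h ^ l) ^ 2 := by
      rw [← pow_succ', hkl, ← pow_mul, mul_two]
    linarith
  have e6 : √(4 * c.C * (s + h ^ 16)) ≤ h ^ l := by
    rw [← Real.sqrt_sq (show 0 ≤ h ^ l by positivity)]
    exact Real.sqrt_le_sqrt e2
  unfold ce er
  have e7 : h ^ 7 * √(4 * c.C * (s + h ^ 16)) ≤ h ^ 7 * h ^ l :=
    mul_le_mul_of_nonneg_left e6 (by positivity)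
  have e8 : h ^ 7 * h ^ l = h ^ (l + 7) := by rw [← pow_add, add_comm]
  have e9 : h ^ 12 ≤ h ^ (l + 7) := pow_le_pow_right₀ h1 (by omega)
  have e10 : h ^ (l + 8) = h * h ^ (l + 7) := by rw [← pow_succ']
  have e11 : 2 * h ^ (l + 7) ≤ h * h ^ (l + 7) := mul_le_mul_of_nonneg_right h2 (by positivity)
  rw [e10]
  linarith

theorem ce_big (c : Cor) : ∀ᶠ h : ℝ in atTop, ∀ s : ℝ, s ≤ h ^ 1001 → ce c h s ≤ h ^ 509 := by
  filter_upwards [eventually_ge_atTop (8 * c.C), eventually_ge_atTop (2 : ℝ)] with h h8 h2 s hs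
  exact Conf_ce 1001 501 (by norm_num) (by norm_num) h8 h2 hs

theorem ce_small (c : Cor) : ∀ᶠ h : ℝ in atTop, ∀ s : ℝ, s ≤ h ^ 515 → ce c h s ≤ h ^ 266 := by
  filter_upwards [eventually_ge_atTop (8 * c.C), eventually_ge_atTop (2 : ℝ)] with h h8 h2 s hs
  exact Conf_ce 515 258 (by norm_num) (by norm_num) h8 h2 hs

/-- The inverse matrix. -/
private theorem Conf_basis (c : Cor) (x : ℝ × ℝ) : x = (dp c.G x) • c.v + (dp c.Y x) • c.e := by
  have h1 := c.Gv
  have h2 := c.Yv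
  have h3 := c.Ge
  have h4 := c.Ye
  unfold dp at h1 h2 h3 h4
  have hD : c.v.1 * c.e.2 - c.v.2 * c.e.1 ≠ 0 := by
    intro hD
    have h5 : c.e.2 = 0 := by
      have : c.G.1 * (c.v.1 * c.e.2 - c.v.2 * c.e.1) = c.e.2 := by
        linear_combination c.e.2 * h1 - c.v.2 * h3
      rw [hD, mul_zero] at this
      exact this.symm
    have h6 : c.e.1 = 0 := by
      have : c.G.2 * (c.v.1 * c.e.2 - c.v.2 * c.e.1) = -c.e.1 := by
        linear_combination c.v.1 * h3 - c.e.1 * h1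
      rw [hD, mul_zero] at this
      linarith
    rw [h5, h6] at h4
    norm_num at h4
  have k1 : c.G.1 * (c.v.1 * c.e.2 - c.v.2 * c.e.1) = c.e.2 := by
    linear_combination c.e.2 * h1 - c.v.2 * h3
  have k2 : c.G.2 * (c.v.1 * c.e.2 - c.v.2 * c.e.1) = -c.e.1 := by
    linear_combination c.v.1 * h3 - c.e.1 * h1
  have k3 : c.Y.1 * (c.v.1 * c.e.2 - c.v.2 * c.e.1) = -c.v.2 := by
    linear_combination c.e.2 * h2 - c.v.2 * h4
  have k4 : c.Y.2 * (c.v.1 * c.e.2 - c.v.2 * c.e.1) = c.v.1 := by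
    linear_combination c.v.1 * h4 - c.e.1 * h2
  refine Prod.ext ?_ ?_
  · simp only [Prod.fst_add, Prod.smul_fst, smul_eq_mul, dp]
    have : (c.v.1 * c.e.2 - c.v.2 * c.e.1) * (x.1 - ((c.G.1 * x.1 + c.G.2 * x.2) * c.v.1
      + (c.Y.1 * x.1 + c.Y.2 * x.2) * c.e.1)) = 0 := by
      linear_combination (-x.1 * c.v.1) * k1 + (-x.2 * c.v.1) * k2 + (-x.1 * c.e.1) * k3
        + (-x.2 * c.e.1) * k4
    have := (mul_eq_zero.1 this).resolve_left hD
    linarith
  · simp only [Prod.snd_add, Prod.smul_snd, smul_eq_mul, dp]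
    have : (c.v.1 * c.e.2 - c.v.2 * c.e.1) * (x.2 - ((c.G.1 * x.1 + c.G.2 * x.2) * c.v.2
      + (c.Y.1 * x.1 + c.Y.2 * x.2) * c.e.2)) = 0 := by
      linear_combination (-x.1 * c.v.2) * k1 + (-x.2 * c.v.2) * k2 + (-x.1 * c.e.2) * k3
        + (-x.2 * c.e.2) * k4
    have := (mul_eq_zero.1 this).resolve_left hD
    linarith

theorem rn_le (hc : IsCor c μ) (x : ℝ × ℝ) : rn x ≤ c.C * μ x := by
  have h1 : rn x ≤ |dp c.G x| * rn c.v + |dp c.Y x| * rn c.e := by
    conv_lhs => rw [Conf_basis c x]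
    refine (rn_add_le _ _).trans (le_of_eq ?_)
    rw [rn_smul, rn_smul]
  have hv := rn_nonneg c.v
  have he := rn_nonneg c.e
  have hG := rn_nonneg c.G
  have hY := rn_nonneg c.Y
  have hCdef : c.C = 2 * (1 + rn c.G + rn c.Y) * (1 + rn c.v + rn c.e) := rfl
  have hCv : rn c.v + rn c.e ≤ c.C := by
    rw [hCdef]
    have : 0 ≤ (rn c.G + rn c.Y) * (1 + rn c.v + rn c.e) := by positivity
    nlinarith
  have h2 := hc.low x
  have h3 := abs_nonneg (dp c.G x)
  have h4 := abs_nonneg (dp c.Y x)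
  have hC := c.one_le_C
  have h5 : |dp c.G x| * rn c.v ≤ |dp c.G x| * c.C := mul_le_mul_of_nonneg_left (by linarith) h3
  have h6 : |dp c.Y x| * rn c.e ≤ |dp c.Y x| * c.C := mul_le_mul_of_nonneg_left (by linarith) h4
  have h7 := mul_le_mul_of_nonneg_left h2 (show 0 ≤ c.C by linarith)
  linarith

private theorem Conf_split {a b : ℝ} {τ : Env} (hτ : Bd a b τ) (ha : 0 ≤ a) {x z p : V} (w : grid.Walk x z)
    (hp : p ∈ w.support) : T τ x p + T τ p z ≤ cost τ w := by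
  classical
  have h1 := w.take_spec hp
  have h2 := cost_append τ (w.takeUntil p hp) (w.dropUntil p hp)
  rw [h1] at h2
  rw [h2]
  exact add_le_add (T_le_cost hτ ha _) (T_le_cost hτ ha _)

private theorem Conf_er {C h r : ℝ} (hC : 1 ≤ C) (hh : 4 * C ≤ h) (hr : h ^ 16 ≤ r) : er h r * (2 * C) ≤ r := by
  have h1 : 1 ≤ h := by linarith
  have h0 : 0 ≤ h := by linarith
  have hr0 : 0 ≤ r := le_trans (by positivity) hr
  have e1 : h ^ 8 ≤ √r := by
    refine Real.le_sqrt_of_sq_le ?_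
    rw [← pow_mul]
    exact hr
  have hs0 : 0 ≤ √r := Real.sqrt_nonneg r
  have hss : √r * √r = r := Real.mul_self_sqrt hr0
  have e2 : h ^ 7 * √r * (4 * C) ≤ h ^ 7 * √r * h := mul_le_mul_of_nonneg_left hh (by positivity)
  have e3 : h ^ 7 * √r * h = h ^ 8 * √r := by ring
  have e4 : h ^ 8 * √r ≤ √r * √r := mul_le_mul_of_nonneg_right e1 hs0
  have e5 : h ^ 12 * (4 * C) ≤ h ^ 12 * h := mul_le_mul_of_nonneg_left hh (by positivity)
  have e6 : h ^ 12 * h ≤ h ^ 16 := by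
    rw [← pow_succ]
    exact pow_le_pow_right₀ h1 (by norm_num)
  unfold er
  nlinarith

private theorem Conf_bd {C h s : ℝ} {x p : V} (hC : 1 ≤ C) (hh : 3 + 4 * C ≤ h) (hx : nm x ≤ h ^ 2300)
    (hs : s ≤ h ^ 2300) (hp : nm (p - x) ≤ 2 * C * (s + h ^ 16) + 2) : nm p ≤ h ^ 2400 := by
  have h1 : 1 ≤ h := by linarith
  have h0 : 0 ≤ h := by linarith
  have e1 : nm p ≤ nm (p - x) + nm x := by
    have := nm_add_le (p - x) x
    rwa [sub_add_cancel] at this
  have e2 : h ^ 16 ≤ h ^ 2300 := pow_le_pow_right₀ h1 (by norm_num)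
  have e3 : (1 : ℝ) ≤ h ^ 2300 := one_le_pow₀ h1
  have e4 : 2 * C * (s + h ^ 16) ≤ 2 * C * (h ^ 2300 + h ^ 2300) :=
    mul_le_mul_of_nonneg_left (by linarith) (by linarith)
  have e5 : (3 + 4 * C) * h ^ 2300 ≤ h * h ^ 2300 := mul_le_mul_of_nonneg_right hh (by positivity)
  have e6 : h * h ^ 2300 ≤ h ^ 2400 := by
    rw [← pow_succ']
    exact pow_le_pow_right₀ h1 (by norm_num)
  nlinarith

private theorem Conf_near (hc : IsCor c μ) {h : ℝ} (hh : 3 + 4 * c.C ≤ h) {a : ℝ} {τ : Env} (ha : 0 < a)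
    (hτ : Bd a h τ) (hL : LT μ h τ) {x z : V} (w : grid.Walk x z) {s : ℝ} (hx : nm x ≤ h ^ 2300) (hs0 : 0 ≤ s)
    (hs : s ≤ h ^ 2300) (hw : cost τ w ≤ s) (p : V) (hp : p ∈ w.support) :
    nm (p - x) ≤ 2 * c.C * (s + h ^ 16) := by
  classical
  have hC := c.one_le_C
  have h1 : 1 ≤ h := by linarith
  have h0 : 0 ≤ h := by linarith
  by_contra hcon
  push Not at hcon
  have hR0 : 0 < 2 * c.C * (s + h ^ 16) := by positivity
  obtain ⟨i, -, hi1, hi2, -⟩ := first_passage (fun v => nm (v - x)) 1 (by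
      intro u v huv
      have k1 := nm_adj huv
      have k2 := nm_add_le (v - u) (u - x)
      have k3 := nm_add_le (u - v) (v - x)
      rw [sub_add_sub_cancel] at k2 k3
      rw [nm_sub_comm u v] at k3
      show |nm (v - x) - nm (u - x)| ≤ 1
      rw [abs_le]
      constructor <;> linarith) (min (nm (p - x)) (2 * c.C * (s + h ^ 16) + 1)) (w.takeUntil p hp)
      (by
        show nm (x - x) < _
        rw [sub_self, nm_zero]
        exact lt_min (by linarith) (by linarith))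
      (min_le_left _ _)
  set q := (w.takeUntil p hp).getVert i with hq
  have hqs : q ∈ w.support := w.support_takeUntil_subset_support hp ((w.takeUntil p hp).getVert_mem_support i)
  have k1 : 2 * c.C * (s + h ^ 16) < nm (q - x) :=
    lt_of_lt_of_le (lt_min hcon (by linarith)) hi1
  have k2 : nm (q - x) ≤ 2 * c.C * (s + h ^ 16) + 2 := by
    have := min_le_right (nm (p - x)) (2 * c.C * (s + h ^ 16) + 1)
    have hi3 : nm (q - x) < min (nm (p - x)) (2 * c.C * (s + h ^ 16) + 1) + 1 := hi2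
    linarith
  have k3 : nm q ≤ h ^ 2400 := Conf_bd hC hh hx hs k2
  have k4 : nm x ≤ h ^ 2400 := hx.trans (pow_le_pow_right₀ h1 (by norm_num))
  have k5 := hL x q k4 k3
  have k6 := Conf_split hτ ha.le w hqs
  have k7 := T_nonneg hτ ha.le q z
  have k8 := rn_le hc (toR (q - x))
  rw [← nm_eq_rn] at k8
  have k9 : h ^ 16 ≤ nm (q - x) := by
    have : (1 : ℝ) * (0 + h ^ 16) ≤ 2 * c.C * (s + h ^ 16) := by
      apply mul_le_mul (by linarith) (by linarith) (by positivity) (by linarith)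
    linarith
  have k10 := Conf_er hC (by linarith) k9
  have k11 : c.C * μ (toR (q - x)) ≤ c.C * (s + er h (nm (q - x))) :=
    mul_le_mul_of_nonneg_left (by linarith) (by linarith)
  have k12 : 0 ≤ c.C * h ^ 16 := by positivity
  nlinarith

/-- A walk of cost `≤ s` stays within distance `2 C (s + h ^ 16)`. PROOF. Take the first vertex `p` of the walk with
`nm (p - x) > R = 2 C (s + h ^ 16)` (then `nm (p - x) ≤ R + 1`); `LT` for `x, p`, `rn_le`, `er h r ≤ r / (2 C)` for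
`r ≥ h ^ 15`. -/
theorem walk_near (hc : IsCor c μ) : ∀ᶠ h : ℝ in atTop, ∀ (a : ℝ) (τ : Env), 0 < a → Bd a h τ → LT μ h τ →
    ∀ (x z : V) (w : grid.Walk x z) (s : ℝ), nm x ≤ h ^ 2300 → 0 ≤ s → s ≤ h ^ 2300 → cost τ w ≤ s →
      ∀ p ∈ w.support, nm (p - x) ≤ 2 * c.C * (s + h ^ 16) := by
  filter_upwards [eventually_ge_atTop (3 + 4 * c.C)] with h hh a τ ha hτ hL x z w s hx hs0 hs hw p hp
  exact Conf_near hc hh ha hτ hL w hx hs0 hs hw p hp

private theorem Conf_all (hc : IsCor c μ) {h : ℝ} (hh : 3 + 4 * c.C ≤ h) {a : ℝ} {τ : Env} (ha : 0 < a)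
    (hτ : Bd a h τ) (hL : LT μ h τ) {x z : V} (w : grid.Walk x z) {s : ℝ} (hx : nm x ≤ h ^ 2300) (hs0 : 0 ≤ s)
    (hs : s ≤ h ^ 2300) (hw : cost τ w ≤ s) (p : V) (hp : p ∈ w.support) :
    |c.y (p - x)| ≤ (s - c.g (z - x) + |c.y (z - x)|) / 2 + ce c h s ∧
        -((s - c.g (z - x)) / 2 + ce c h s) ≤ c.g (p - x) ∧
        c.g (p - x) ≤ c.g (z - x) + ((s - c.g (z - x)) / 2 + ce c h s) ∧
        -((s - c.f (z - x)) / 2 + ce c h s) ≤ c.f (p - x) ∧
        T τ x p + T τ p z ≤ s := by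
  have hC := c.one_le_C
  have h1 : 1 ≤ h := by linarith
  have h0 : 0 ≤ h := by linarith
  have n1 := Conf_near hc hh ha hτ hL w hx hs0 hs hw p hp
  have n2 := Conf_near hc hh ha hτ hL w hx hs0 hs hw z w.end_mem_support
  have hR0 : 0 ≤ 2 * c.C * (s + h ^ 16) := by positivity
  have n3 : nm (z - p) ≤ 4 * c.C * (s + h ^ 16) := by
    have k1 := nm_add_le (z - x) (x - p)
    rw [sub_add_sub_cancel, nm_sub_comm x p] at k1
    linarith
  have n4 : nm (p - x) ≤ 4 * c.C * (s + h ^ 16) := by linarith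
  have m1 : nm p ≤ h ^ 2400 := Conf_bd hC hh hx hs (by linarith)
  have m2 : nm z ≤ h ^ 2400 := Conf_bd hC hh hx hs (by linarith)
  have m3 : nm x ≤ h ^ 2400 := hx.trans (pow_le_pow_right₀ h1 (by norm_num))
  have l1 := hL x p m3 m1
  have l2 := hL p z m1 m2
  have e1 : er h (nm (p - x)) ≤ ce c h s := er_mono h1 n4
  have e2 : er h (nm (z - p)) ≤ ce c h s := er_mono h1 n3
  have sp := Conf_split hτ ha.le w hp
  have b1 : |c.g (p - x)| + |c.y (p - x)| ≤ μ (toR (p - x)) := hc.low _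
  have b2 : |c.g (z - p)| + |c.y (z - p)| ≤ μ (toR (z - p)) := hc.low _
  have g1 : c.g (z - p) = c.g (z - x) - c.g (p - x) := by
    rw [c.g_sub, c.g_sub, c.g_sub]; ring
  have y1 : c.y (z - p) = c.y (z - x) - c.y (p - x) := by
    rw [c.y_sub, c.y_sub, c.y_sub]; ring
  rw [g1, y1] at b2
  have a1 := le_abs_self (c.g (p - x))
  have a2 := neg_abs_le (c.g (p - x))
  have a3 := le_abs_self (c.g (z - x) - c.g (p - x))
  have a4 := neg_abs_le (c.g (z - x) - c.g (p - x))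
  have a5 := le_abs_self (c.y (p - x))
  have a6 := neg_abs_le (c.y (p - x))
  have a7 := le_abs_self (c.y (z - x) - c.y (p - x))
  have a8 := neg_abs_le (c.y (z - x) - c.y (p - x))
  have a9 : |c.y (p - x)| - |c.y (z - x)| ≤ |c.y (z - x) - c.y (p - x)| := by
    rw [abs_sub_comm]
    exact abs_sub_abs_le_abs_sub _ _
  have a10 := le_abs_self (c.y (z - x))
  have f1 : c.f (z - x) = c.g (z - x) + c.y (z - x) := rfl
  have f2 : c.f (p - x) = c.g (p - x) + c.y (p - x) := rfl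
  rw [f1, f2]
  refine ⟨by linarith, by linarith, by linarith, by linarith, by linarith⟩

/-- Confinement. PROOF. `T x p + T p z ≤ s`, `LT` for both pieces, `|g| + |y| ≤ μ` and `|f| ≤ μ` on lattice vectors. -/
theorem walk_conf (hc : IsCor c μ) : ∀ᶠ h : ℝ in atTop, ∀ (a : ℝ) (τ : Env), 0 < a → Bd a h τ → LT μ h τ →
    ∀ (x z : V) (w : grid.Walk x z) (s : ℝ), nm x ≤ h ^ 2300 → 0 ≤ s → s ≤ h ^ 2300 → cost τ w ≤ s →
      ∀ p ∈ w.support, |c.y (p - x)| ≤ (s - c.g (z - x) + |c.y (z - x)|) / 2 + ce c h s ∧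
        -((s - c.g (z - x)) / 2 + ce c h s) ≤ c.g (p - x) ∧
        c.g (p - x) ≤ c.g (z - x) + ((s - c.g (z - x)) / 2 + ce c h s) ∧
        -((s - c.f (z - x)) / 2 + ce c h s) ≤ c.f (p - x) ∧
        T τ x p + T τ p z ≤ s := by
  filter_upwards [eventually_ge_atTop (3 + 4 * c.C)] with h hh a τ ha hτ hL x z w s hx hs0 hs hw p hp
  exact Conf_all hc hh ha hτ hL w hx hs0 hs hw p hp

/-- The lower bounds used all the time. -/
theorem LT_low (hc : IsCor c μ) {h : ℝ} {τ : Env} (hL : LT μ h τ) {x z : V} (hx : nm x ≤ h ^ 2400)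
    (hz : nm z ≤ h ^ 2400) : |c.g (z - x)| + |c.y (z - x)| ≤ T τ x z + er h (nm (z - x)) :=
  (hc.low (toR (z - x))).trans (hL x z hx hz)

/-! ### Walks inside a set of edges -/

theorem Reach.mono {A A' : Set Edge} {τ : Env} {x z : V} {s s' : ℝ} (hr : Reach A τ x z s) (hA : A ⊆ A')
    (hs : s ≤ s') : Reach A' τ x z s' := by
  obtain ⟨w, h1, h2⟩ := hr
  exact ⟨w, fun e he => hA (h1 e he), h2.trans hs⟩

theorem dependsOn_reach (A : Set Edge) (x z : V) (s : ℝ) : DependsOn (fun τ => Reach A τ x z s) A := by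
  intro τ τ' h
  refine propext ⟨?_, ?_⟩
  · rintro ⟨w, h1, h2⟩
    refine ⟨w, h1, ?_⟩
    rw [← cost_congr w fun e he => h e (h1 e he)]
    exact h2
  · rintro ⟨w, h1, h2⟩
    refine ⟨w, h1, ?_⟩
    rw [cost_congr w fun e he => h e (h1 e he)]
    exact h2

theorem Reach.T_le {a b : ℝ} (ha : 0 < a) {A : Set Edge} {τ : Env} (hτ : Bd a b τ) {x z : V} {s : ℝ}
    (hr : Reach A τ x z s) : T τ x z ≤ s := by
  obtain ⟨w, -, h2⟩ := hr
  exact (T_le_cost hτ ha.le w).trans h2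

theorem Reach.T_res_le {a b : ℝ} (ha : 0 < a) (hab : a ≤ b) {A : Set Edge} {τ : Env} (hτ : Bd a b τ) {x z : V}
    {s : ℝ} (hr : Reach A τ x z s) : T (res b A τ) x z ≤ s := by
  obtain ⟨w, h1, h2⟩ := hr
  refine (T_le_cost (Bd_res hab hτ A) ha.le w).trans ?_
  rw [cost_congr (τ' := τ) w fun e he => ?_]
  · exact h2
  · unfold res
    rw [if_pos (h1 e he)]

/-- The walk may be taken to be a path. -/
theorem Reach.exists_path {a b : ℝ} (ha : 0 < a) {A : Set Edge} {τ : Env} (hτ : Bd a b τ) {x z : V} {s : ℝ}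
    (hr : Reach A τ x z s) : ∃ w : grid.Walk x z, w.IsPath ∧ (∀ e ∈ wedges w, e ∈ A) ∧ cost τ w ≤ s := by
  classical
  obtain ⟨w, h1, h2⟩ := hr
  refine ⟨w.bypass, w.bypass_isPath, fun e he => h1 e ?_, ?_⟩
  · unfold wedges at he ⊢
    exact (w.edges_bypass_sublist_edges.map ke).subset he
  · refine le_trans ?_ h2
    unfold cost wedges
    refine List.Sublist.sum_le_sum ((w.edges_bypass_sublist_edges.map ke).map τ) ?_
    intro t ht
    obtain ⟨e, -, rfl⟩ := List.mem_map.1 ht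
    exact ha.le.trans (hτ e).1

theorem mem_lane_sh (c : Cor) (x : V) (r W B : ℝ) (e : Edge) :
    e ∈ lane c x r W B ↔ (e.1 - x, e.2) ∈ lane c 0 r W B := by
  have e1 : e.1 - x - 0 = e.1 - x := sub_zero _
  have e2 : e.1 - x + dir e.2 - 0 = e.1 + dir e.2 - x := by abel
  unfold lane edg
  simp only [Set.mem_ofPred_eq]
  rw [e1, e2]

private theorem Conf_ke (x : V) {u v : V} (h : grid.Adj u v) :
    ke s(u + x, v + x) = ((ke s(u, v)).1 + x, (ke s(u, v)).2) := by
  obtain ⟨s, h | h⟩ := h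
  · subst h
    have e : u + dir s + x = (u + x) + dir s := by abel
    rw [e, ke_dir, ke_dir]
  · subst h
    have e : v + dir s + x = (v + x) + dir s := by abel
    rw [e, ke_dir', ke_dir']

private theorem Conf_map (x : V) (τ : Env) {u v : V} (w : grid.Walk u v) :
    ∃ w' : grid.Walk (u + x) (v + x), cost τ w' = cost (sh x τ) w ∧
      ∀ e ∈ wedges w', (e.1 - x, e.2) ∈ wedges w := by
  induction w with
  | nil => exact ⟨SimpleGraph.Walk.nil, by simp [cost, wedges], by simp [wedges]⟩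
  | @cons u v w h p ih =>
    obtain ⟨w', hw', hw2⟩ := ih
    have hadj : grid.Adj (u + x) (v + x) := by
      obtain ⟨s, h | h⟩ := h
      · exact ⟨s, Or.inl (by rw [h]; abel)⟩
      · exact ⟨s, Or.inr (by rw [h]; abel)⟩
    refine ⟨SimpleGraph.Walk.cons hadj w', ?_, ?_⟩
    · unfold cost wedges at hw' ⊢
      rw [SimpleGraph.Walk.edges_cons, SimpleGraph.Walk.edges_cons, List.map_cons, List.map_cons,
        List.map_cons, List.map_cons, List.sum_cons, List.sum_cons, hw', Conf_ke x h]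
      rfl
    · intro e he
      unfold wedges at he hw2 ⊢
      rw [SimpleGraph.Walk.edges_cons, List.map_cons, List.mem_cons] at he ⊢
      rcases he with he | he
      · left
        rw [he, Conf_ke x h]
        exact Prod.ext (add_sub_cancel_right _ _) rfl
      · right
        exact hw2 e he

/-- Shift of a lane event. -/
theorem reach_sh (c : Cor) (x z : V) (r W B s : ℝ) (τ : Env) :
    Reach (lane c 0 r W B) (sh x τ) 0 z s ↔ Reach (lane c x r W B) τ x (x + z) s := by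
  constructor
  · rintro ⟨w, h1, h2⟩
    obtain ⟨w', k1, k2⟩ := Conf_map x τ w
    have h3 : Reach (lane c x r W B) τ (0 + x) (z + x) s :=
      ⟨w', fun e he => (mem_lane_sh c x r W B e).2 (h1 _ (k2 e he)), by rw [k1]; exact h2⟩
    rwa [zero_add, add_comm z x] at h3
  · rintro ⟨w, h1, h2⟩
    obtain ⟨w', k1, k2⟩ := Conf_map (-x) (sh x τ) w
    have e0 : sh (-x) (sh x τ) = τ := by
      funext e
      show τ (e.1 + -x + x, e.2) = τ e
      rw [neg_add_cancel_right]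
    rw [e0] at k1
    have h3 : Reach (lane c 0 r W B) (sh x τ) (x + -x) (x + z + -x) s := by
      refine ⟨w', fun e he => ?_, by rw [k1]; exact h2⟩
      have k3 := (mem_lane_sh c x r W B _).1 (h1 _ (k2 e he))
      have e1 : (e.1 - -x - x, e.2) = e := Prod.ext (by show e.1 - -x - x = e.1; abel) rfl
      rw [← e1]
      exact k3
    have e2 : x + z + -x = z := by abel
    rwa [add_neg_cancel, e2] at h3

theorem lane_flip (c : Cor) (x : V) (r W B : ℝ) : lane c.flip x r W B = lane c x r W B := by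
  unfold lane
  simp only [Cor.flip_g, Cor.flip_y, abs_neg]

/-- On `LT` a cheap passage is realised inside the lane. -/
theorem lane_reach (hc : IsCor c μ) : ∀ᶠ h : ℝ in atTop, ∀ (a : ℝ) (τ : Env), 0 < a → Bd a h τ → LT μ h τ →
    ∀ (x z : V) (s r W B : ℝ), nm x ≤ h ^ 2300 → s ≤ h ^ 2300 → T τ x z ≤ s → c.g (z - x) ≤ r + c.C →
      (s - c.g (z - x) + |c.y (z - x)|) / 2 + ce c h s ≤ W → (s - c.g (z - x)) / 2 + ce c h s + c.C ≤ B →
      Reach (lane c x r W B) τ x z s := by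
  filter_upwards [eventually_ge_atTop (3 + 4 * c.C)] with h hh a τ ha hτ hL x z s r W B hx hs hT hg hW hB
  have hC := c.one_le_C
  obtain ⟨w, hw⟩ := exists_geo hτ ha x z
  have hcost : cost τ w ≤ s := by rw [hw.2]; exact hT
  have hs0 : 0 ≤ s := (T_nonneg hτ ha.le x z).trans hT
  have key : ∀ p ∈ w.support, |c.y (p - x)| ≤ W ∧ -B ≤ c.g (p - x) ∧ c.g (p - x) ≤ r + B := by
    intro p hp
    obtain ⟨k1, k2, k3, -, -⟩ := Conf_all hc hh ha hτ hL w hx hs0 hs hcost p hp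
    exact ⟨k1.trans hW, by linarith, by linarith⟩
  refine ⟨w, fun e he => ?_, hcost⟩
  obtain ⟨h1, h2⟩ := wedges_support w he
  exact ⟨key _ h1, key _ h2⟩

end Pool.Agent.W_1b8d5d_np
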