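import Pool.Agent.W_1b8d5d_np.Mod

/-!
MP_1b8d5d_pr, [NP]: elementary consequences of `GoodN`: shifts, means and medians.
-/

set_option autoImplicit false

namespace Pool.Agent.W_1b8d5d_np

open Finset Filter Topology
open Pool.Agent.W_1b8d5d_h85

variable {Q : Qn} {m : V → ℝ} {a h : ℝ} {M : Mdl a h}

theorem sg_mono {h r r' : ℝ} (h1 : 1 ≤ h) (hr : r ≤ r') : sg h r ≤ sg h r' := by
  unfold sg
  have h2 : 0 ≤ h ^ 4 := by positivity
  have h3 := mul_le_mul_of_nonneg_left (Real.sqrt_le_sqrt hr) h2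
  linarith

theorem le_sg {h : ℝ} (h1 : 1 ≤ h) (r : ℝ) : h ^ 11 ≤ sg h r := by
  unfold sg
  have h2 : 0 ≤ h ^ 4 := by positivity
  have h3 := mul_nonneg h2 (Real.sqrt_nonneg r)
  linarith

theorem er_mono {h r r' : ℝ} (h1 : 1 ≤ h) (hr : r ≤ r') : er h r ≤ er h r' := by
  unfold er
  have h0 : 0 ≤ h := by linarith
  have h2 : 0 ≤ h ^ 7 := by positivity
  have h3 := mul_le_mul_of_nonneg_left (Real.sqrt_le_sqrt hr) h2
  linarith

theorem P_sh (hM : GoodN Q m M) (z : V) (p : Env → Prop) : M.P (fun τ => p (sh z τ)) = M.P p := by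
  rw [M.P_def, M.P_def]
  exact hM.inv z fun τ => @ite ℝ (p τ) (Classical.propDecidable _) 1 0

theorem P_rf (hM : GoodN Q m M) (p : Env → Prop) : M.P (fun τ => p (rf τ)) = M.P p := by
  rw [M.P_def, M.P_def]
  exact hM.rfl' fun τ => @ite ℝ (p τ) (Classical.propDecidable _) 1 0

/-- The passage time from `x` to `z` has the law of the passage time from `0` to `z - x`. -/
theorem P_T_sub (hM : GoodN Q m M) (x z : V) (p : ℝ → Prop) :
    M.P (fun τ => p (T τ x z)) = M.P (fun τ => p (T τ 0 (z - x))) := by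
  have h1 : ∀ τ : Env, T τ x z = T (sh x τ) 0 (z - x) := fun τ => by
    rw [T_sh, zero_add, sub_add_cancel]
  have h2 : (fun τ => p (T τ x z)) = fun τ => p (T (sh x τ) 0 (z - x)) := by
    funext τ
    rw [h1 τ]
  rw [h2]
  exact P_sh hM x fun τ => p (T τ 0 (z - x))

theorem E_T_sub (hM : GoodN Q m M) (x z : V) :
    M.E (fun τ => T τ x z) = M.E (fun τ => T τ 0 (z - x)) := by
  have h1 : ∀ τ : Env, T τ x z = T (sh x τ) 0 (z - x) := fun τ => by
    rw [T_sh, zero_add, sub_add_cancel]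
  have h2 : (fun τ => T τ x z) = fun τ => T (sh x τ) 0 (z - x) := funext h1
  rw [h2]
  exact hM.inv x fun τ => T τ 0 (z - x)

theorem E_T_neg (hM : GoodN Q m M) (z : V) :
    M.E (fun τ => T τ 0 (-z)) = M.E (fun τ => T τ 0 z) := by
  have h2 : (fun τ => T τ 0 (-z)) = fun τ => T (rf τ) 0 z := by
    funext τ
    rw [T_rf, neg_zero]
  rw [h2]
  exact hM.rfl' fun τ => T τ 0 z

theorem E_T_add (hM : GoodN Q m M) (x z : V) :
    M.E (fun τ => T τ 0 (x + z)) ≤ M.E (fun τ => T τ 0 x) + M.E (fun τ => T τ 0 z) := by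
  have h1 := E_T_sub hM x (x + z)
  rw [add_sub_cancel_left] at h1
  rw [← h1, ← M.E_add]
  exact M.E_mono fun τ hτ => T_triangle hτ hM.apos.le 0 x (x + z)

theorem E_T_nsmul (hM : GoodN Q m M) (k : ℕ) (z : V) :
    M.E (fun τ => T τ 0 (k • z)) ≤ k * M.E (fun τ => T τ 0 z) := by
  induction k with
  | zero =>
    rw [zero_smul, Nat.cast_zero, zero_mul]
    exact M.E_le_of_le fun τ hτ => (T_self hτ hM.apos.le 0).le
  | succ k ih =>
    rw [succ_nsmul]
    have h1 := E_T_add hM (k • z) z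
    push_cast
    linarith

/-- Crude bound. -/
theorem E_T_le (hM : GoodN Q m M) (z : V) : M.E (fun τ => T τ 0 z) ≤ h * nm z := by
  refine M.E_le_of_le fun τ hτ => ?_
  have h1 := T_upper hτ hM.apos.le 0 z
  rwa [sub_zero] at h1

/-- Means and medians. PROOF: with `σ = sg h (nm z)`, Chebyshev (`Mdl.chebyshev`, field `var`) gives
`P(|T - E T| ≥ 2 σ) ≤ 1/4 < 49/100`, so `E T ≤ m z + h + 2 σ` (field `medU`) and `m z - h - 2 σ ≤ E T` (field `medL`);
`h ≤ h ^ 11 ≤ σ`. -/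
theorem mean_med (hM : GoodN Q m M) (h1 : 1 ≤ h) (z : V) (hz : nm z ≤ h ^ 2500) :
    |M.E (fun τ => T τ 0 z) - m z| ≤ 3 * sg h (nm z) := by
  have hs1 : h ≤ sg h (nm z) := by
    have h2 : h ^ 1 ≤ h ^ 11 := pow_le_pow_right₀ h1 (by norm_num)
    rw [pow_one] at h2
    exact h2.trans (le_sg h1 _)
  have hs0 : 0 < sg h (nm z) := by linarith
  set σ : ℝ := sg h (nm z) with hσ
  have hch : M.P (fun τ => 2 * σ ≤ |T τ 0 z - M.E (fun τ => T τ 0 z)|) ≤ 1 / 4 := by
    refine (M.chebyshev (fun τ => T τ 0 z) (s := 2 * σ) (by linarith)).trans ?_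
    rw [div_le_iff₀ (by positivity)]
    have h3 := hM.var z hz
    rw [← hσ] at h3
    refine h3.trans ?_
    nlinarith [sq_nonneg σ]
  rw [abs_le]
  constructor
  · by_contra hcon
    push Not at hcon
    have h3 := hM.medL z hz
    have h4 : M.P (fun τ => m z - h ≤ T τ 0 z) ≤
        M.P (fun τ => 2 * σ ≤ |T τ 0 z - M.E (fun τ => T τ 0 z)|) := by
      refine M.P_mono fun τ _ h5 => ?_
      refine le_trans ?_ (le_abs_self _)
      linarith
    linarith
  · by_contra hcon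
    push Not at hcon
    have h3 := hM.medU z hz
    have h4 : M.P (fun τ => T τ 0 z ≤ m z + h) ≤
        M.P (fun τ => 2 * σ ≤ |T τ 0 z - M.E (fun τ => T τ 0 z)|) := by
      refine M.P_mono fun τ _ h5 => ?_
      have h6 := neg_abs_le (T τ 0 z - M.E (fun τ => T τ 0 z))
      linarith
    linarith

theorem low_med (hM : GoodN Q m M) (h1 : 1 ≤ h) (z : V) (hz : nm z ≤ h ^ 2500) :
    M.P (fun τ => T τ 0 z ≤ m z - 4 * sg h (nm z)) ≤ Real.exp (-h) := by
  have h2 := abs_le.1 (mean_med hM h1 z hz)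
  refine le_trans (M.P_mono fun τ _ h3 => ?_) (hM.low z hz)
  linarith [h2.1]

end Pool.Agent.W_1b8d5d_np
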