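import Pool.Agent.W_1b8d5d_np.Med1

/-!
MP_1b8d5d_pr, [NP]: the time constant is a lower bound of the medians (doubling), linear upper bound for the means, the
medians in a real direction.
-/

set_option autoImplicit false

namespace Pool.Agent.W_1b8d5d_np

open Finset Filter Topology
open Pool.Agent.W_1b8d5d_h85

variable {Q : Qn} {m : V → ℝ} {μ : ℝ × ℝ → ℝ}

private theorem Med2_norm_le (x : ℝ × ℝ) : ‖x‖ ≤ rn x := by
  rw [Prod.norm_def]
  have h1 := abs_nonneg x.1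
  have h2 := abs_nonneg x.2
  exact max_le (by rw [Real.norm_eq_abs]; unfold rn; linarith)
    (by rw [Real.norm_eq_abs]; unfold rn; linarith)

private theorem Med2_mu_zero (hmu : MuM μ m) : μ 0 = 0 := by
  have h := hmu.hom 0 0 le_rfl
  simpa using h

theorem mu_le (hmu : MuM μ m) : ∃ C : ℝ, 1 ≤ C ∧ ∀ x : ℝ × ℝ, |μ x| ≤ C * rn x := by
  obtain ⟨C, hC⟩ := (isCompact_closedBall (0 : ℝ × ℝ) 1).exists_bound_of_continuousOn
    hmu.cont.continuousOn
  refine ⟨max C 1, le_max_right _ _, fun x => ?_⟩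
  by_cases hx : rn x = 0
  · rw [rn_eq_zero.1 hx, Med2_mu_zero hmu, abs_zero]
    have := rn_nonneg (0 : ℝ × ℝ)
    have h1 : (0 : ℝ) ≤ max C 1 := le_trans zero_le_one (le_max_right _ _)
    positivity
  · have hpos : 0 < rn x := lt_of_le_of_ne (rn_nonneg x) (Ne.symm hx)
    have h1 : μ x = rn x * μ ((rn x)⁻¹ • x) := by
      rw [← hmu.hom _ _ hpos.le, smul_smul, mul_inv_cancel₀ hx, one_smul]
    have h2 : ‖(rn x)⁻¹ • x‖ ≤ 1 := by
      refine (Med2_norm_le _).trans ?_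
      rw [rn_smul, abs_of_pos (inv_pos.2 hpos), inv_mul_cancel₀ hx]
    have h3 := hC ((rn x)⁻¹ • x) (by rwa [mem_closedBall_zero_iff])
    rw [Real.norm_eq_abs] at h3
    rw [h1, abs_mul, abs_of_pos hpos, mul_comm]
    exact mul_le_mul_of_nonneg_right (h3.trans (le_max_left _ _)) hpos.le

private theorem Med2_nm_nsmul (k : ℕ) (z : V) : nm (k • z) = k * nm z := by
  rw [nm_eq_rn, toR_nsmul, rn_smul, Nat.abs_cast, nm_eq_rn]

private theorem Med2_two_rpow : (2 : ℝ) ^ (502 / 1000 : ℝ) ≤ 3 / 2 := by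
  have h1 : (2 : ℝ) ^ (502 / 1000 : ℝ) ≤ (2 : ℝ) ^ (7 / 12 : ℝ) :=
    Real.rpow_le_rpow_of_exponent_le (by norm_num) (by norm_num)
  refine h1.trans ?_
  have h2 : ((2 : ℝ) ^ (7 / 12 : ℝ)) ^ 12 ≤ (3 / 2 : ℝ) ^ 12 := by
    rw [← Real.rpow_natCast ((2 : ℝ) ^ (7 / 12 : ℝ)) 12, ← Real.rpow_mul (by norm_num)]
    have h3 : (7 / 12 : ℝ) * ((12 : ℕ) : ℝ) = ((7 : ℕ) : ℝ) := by norm_num
    rw [h3, Real.rpow_natCast]
    norm_num
  exact le_of_pow_le_pow_left₀ (by norm_num) (by norm_num) h2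

/-- The comparison of `z` and `2 z`. -/
private theorem Med2_double (hN : HasN Q m) : ∃ R : ℝ, 1 ≤ R ∧ ∀ z : V, R ≤ nm z →
    m (2 • z) ≤ 2 * m z + 36 * (nm z) ^ (502 / 1000 : ℝ) := by
  obtain ⟨h₀, hh₀⟩ := eventually_atTop.1 hN
  refine ⟨max 1 ((max h₀ 1) ^ 2500), le_max_left _ _, fun z hz => ?_⟩
  have hr1 : 1 ≤ nm z := (le_max_left _ _).trans hz
  have hr2 : (max h₀ 1) ^ 2500 ≤ nm z := (le_max_right _ _).trans hz
  have hr0 : 0 < 2 * nm z := by linarith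
  obtain ⟨h, hh⟩ : ∃ h : ℝ, h = (2 * nm z) ^ (((2500 : ℕ) : ℝ)⁻¹) := ⟨_, rfl⟩
  have hpow : h ^ 2500 = 2 * nm z := by
    rw [hh]
    exact Real.rpow_inv_natCast_pow hr0.le (by norm_num)
  have hh0 : 0 ≤ h := by
    rw [hh]
    positivity
  have hge : max h₀ 1 ≤ h := by
    by_contra hcon
    have h1 := pow_lt_pow_left₀ (not_le.1 hcon) hh0 (show (2500 : ℕ) ≠ 0 by norm_num)
    rw [hpow] at h1
    linarith
  have hge0 : h₀ ≤ h := (le_max_left _ _).trans hge
  have hge1 : 1 ≤ h := (le_max_right _ _).trans hge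
  obtain ⟨a, M, hM⟩ := hh₀ h hge0
  have hn2 : nm (2 • z) = 2 * nm z := by
    rw [Med2_nm_nsmul]
    norm_num
  have h1 := mean_med hM hge1 (2 • z) (by rw [hn2, hpow])
  have h2 := mean_med hM hge1 z (by rw [hpow]; linarith)
  have h3 := E_T_nsmul hM 2 z
  have h4 : sg h (nm z) ≤ sg h (nm (2 • z)) := sg_mono hge1 (by rw [hn2]; linarith)
  have h5 : sg h (nm (2 • z)) ≤ 2 * (2 * nm z) ^ (502 / 1000 : ℝ) := by
    unfold sg
    rw [hn2, ← hpow]
    have h6 : √(h ^ 2500) = h ^ 1250 := by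
      rw [show h ^ 2500 = (h ^ 1250) ^ 2 by ring]
      exact Real.sqrt_sq (by positivity)
    have h7 : (h ^ 2500) ^ (502 / 1000 : ℝ) = h ^ 1255 := by
      rw [← Real.rpow_natCast h 2500, ← Real.rpow_mul hh0,
        show ((2500 : ℕ) : ℝ) * (502 / 1000 : ℝ) = ((1255 : ℕ) : ℝ) by norm_num, Real.rpow_natCast]
    rw [h6, h7, ← pow_add]
    have h8 : h ^ (4 + 1250) ≤ h ^ 1255 := pow_le_pow_right₀ hge1 (by norm_num)
    have h9 : h ^ 11 ≤ h ^ 1255 := pow_le_pow_right₀ hge1 (by norm_num)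
    linarith
  have h6 : (2 * nm z) ^ (502 / 1000 : ℝ) ≤ 2 * (nm z) ^ (502 / 1000 : ℝ) := by
    rw [Real.mul_rpow (by norm_num) (by linarith)]
    apply mul_le_mul_of_nonneg_right _ (by positivity)
    linarith [Med2_two_rpow]
  rw [abs_le] at h1 h2
  push_cast at h3
  linarith [h1.1, h2.2]

/-- PROOF. For `nm z` large let `h = (2 nm z)^(1/2500)`, a good model at scale `h` exists; by `mean_med` and `E_T_add`
`m (2 z) ≤ E T(0,2z) + 3 σ ≤ 2 E T(0,z) + 3 σ ≤ 2 m z + 9 σ`, `σ = sg h (2 nm z) ≤ 2 (2 nm z)^(0.5016)`. Apply this to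
`z, 2z, 4z, ...`: `m (2^j z) / 2^j ≤ m z + C (nm z)^(0.502)` (geometric series), and `m (2^j z) / 2^j → μ z`. -/
theorem mu_le_med (hmu : MuM μ m) (hN : HasN Q m) :
    ∃ C : ℝ, 1 ≤ C ∧ ∀ z : V, C ≤ nm z → μ (toR z) ≤ m z + C * (nm z) ^ (502 / 1000 : ℝ) := by
  obtain ⟨R, hR1, hR⟩ := Med2_double hN
  refine ⟨max R 72, hR1.trans (le_max_left _ _), fun z hz => ?_⟩
  have hzR : R ≤ nm z := (le_max_left _ _).trans hz
  have hz1 : 1 ≤ nm z := hR1.trans hzR
  obtain ⟨q, hq⟩ : ∃ q : ℝ, q = (2 : ℝ) ^ (502 / 1000 : ℝ) := ⟨_, rfl⟩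
  have hq0 : 0 ≤ q := by
    rw [hq]
    positivity
  have hq1 : q ≤ 3 / 2 := by
    rw [hq]
    exact Med2_two_rpow
  obtain ⟨s, hs⟩ : ∃ s : ℝ, s = (nm z) ^ (502 / 1000 : ℝ) := ⟨_, rfl⟩
  have hs0 : 0 ≤ s := by
    rw [hs]
    have := nm_nonneg z
    positivity
  -- the sequence
  have hnm : ∀ j : ℕ, nm ((2 ^ j : ℕ) • z) = 2 ^ j * nm z := by
    intro j
    rw [Med2_nm_nsmul]
    push_cast
    ring
  have hpw : ∀ j : ℕ, (nm ((2 ^ j : ℕ) • z)) ^ (502 / 1000 : ℝ) = q ^ j * s := by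
    intro j
    rw [hnm, Real.mul_rpow (by positivity) (by linarith), ← hs, hq, ← Real.rpow_natCast 2 j,
      ← Real.rpow_mul (by norm_num), ← Real.rpow_natCast _ j, ← Real.rpow_mul (by norm_num),
      mul_comm (j : ℝ)]
  have hstep : ∀ j : ℕ, m ((2 ^ (j + 1) : ℕ) • z) ≤ 2 * m ((2 ^ j : ℕ) • z) + 36 * (q ^ j * s) := by
    intro j
    have h1 := hR ((2 ^ j : ℕ) • z) (by
      rw [hnm]
      have : (1 : ℝ) ≤ 2 ^ j := one_le_pow₀ (by norm_num)
      nlinarith)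
    rw [hpw, smul_smul, ← pow_succ'] at h1
    exact h1
  have hmain : ∀ j : ℕ, m ((2 ^ j : ℕ) • z) ≤ 2 ^ j * (m z + 72 * s * (1 - (3 / 4) ^ j)) := by
    intro j
    induction j with
    | zero => simp
    | succ j ih =>
      have h1 := hstep j
      have h2 : q ^ j ≤ (3 / 2) ^ j := pow_le_pow_left₀ hq0 hq1 j
      have h3 : q ^ j * s ≤ (3 / 2) ^ j * s := mul_le_mul_of_nonneg_right h2 hs0
      have h4 : (3 / 2 : ℝ) ^ j = 2 ^ j * (3 / 4) ^ j := by
        rw [← mul_pow]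
        norm_num
      rw [h4] at h3
      calc m ((2 ^ (j + 1) : ℕ) • z) ≤ 2 * m ((2 ^ j : ℕ) • z) + 36 * (q ^ j * s) := h1
        _ ≤ 2 * (2 ^ j * (m z + 72 * s * (1 - (3 / 4) ^ j))) + 36 * (2 ^ j * (3 / 4) ^ j * s) := by
          linarith
        _ = 2 ^ (j + 1) * (m z + 72 * s * (1 - (3 / 4) ^ (j + 1))) := by
          rw [pow_succ, pow_succ]
          ring
  have hle : ∀ j : ℕ, m ((2 ^ j : ℕ) • z) / ((2 ^ j : ℕ) : ℝ) ≤ m z + 72 * s := by
    intro j
    have h0 : (0 : ℝ) < 2 ^ j := by positivity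
    push_cast
    rw [div_le_iff₀ h0]
    refine (hmain j).trans ?_
    rw [mul_comm]
    apply mul_le_mul_of_nonneg_right _ h0.le
    have h1 : (0 : ℝ) ≤ (3 / 4) ^ j := by positivity
    nlinarith
  have hlim : Tendsto (fun j : ℕ => m ((2 ^ j : ℕ) • z) / ((2 ^ j : ℕ) : ℝ)) atTop
      (𝓝 (μ (toR z))) :=
    (hmu.lim z).comp (tendsto_pow_atTop_atTop_of_one_lt (by norm_num))
  have h1 : μ (toR z) ≤ m z + 72 * s := le_of_tendsto' hlim hle
  rw [← hs]
  have h2 : 72 * s ≤ max R 72 * s := mul_le_mul_of_nonneg_right (le_max_right _ _) hs0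
  linarith

private theorem Med2_natAbs {a h : ℝ} {M : Mdl a h} (hM : GoodN Q m M) (k : ℤ) (z : V) :
    M.E (fun τ => T τ 0 (k • z)) = M.E (fun τ => T τ 0 (k.natAbs • z)) := by
  rcases Int.natAbs_eq k with h | h
  · conv_lhs => rw [h]
    rw [natCast_zsmul]
  · conv_lhs => rw [h]
    rw [neg_smul, natCast_zsmul, E_T_neg hM]

/-- Linear bound along a line. -/
private theorem Med2_line (hmu : MuM μ m) (e : V) (he : nm e = 1) :
    ∃ C : ℝ, 1 ≤ C ∧ ∀ᶠ h : ℝ in atTop, ∀ (a : ℝ) (M : Mdl a h), GoodN Q m M → ∀ k : ℕ,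
      (k : ℝ) ≤ h ^ 2500 → M.E (fun τ => T τ 0 (k • e)) ≤ C * k + 4 * h ^ 11 := by
  have h1 := (hmu.lim e).eventually (gt_mem_nhds (show μ (toR e) < |μ (toR e)| + 1 by
    linarith [le_abs_self (μ (toR e))]))
  obtain ⟨K, hK⟩ := eventually_atTop.1 h1
  refine ⟨|μ (toR e)| + 4, by linarith [abs_nonneg (μ (toR e))], ?_⟩
  filter_upwards [eventually_ge_atTop (max 1 (K : ℝ))] with h hh a M hM k hk
  have hh1 : 1 ≤ h := (le_max_left _ _).trans hh
  have hhK : (K : ℝ) ≤ h := (le_max_right _ _).trans hh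
  have hnk : nm (k • e) = k := by rw [Med2_nm_nsmul, he, mul_one]
  have hk0 : (0 : ℝ) ≤ k := Nat.cast_nonneg k
  have hC : 0 ≤ |μ (toR e)| + 4 := by positivity
  by_cases hc : (k : ℝ) < h ^ 9
  · have h2 := E_T_le hM (k • e)
    rw [hnk] at h2
    have h3 : h * k ≤ h * h ^ 9 := mul_le_mul_of_nonneg_left hc.le (by linarith)
    have h4 : h * h ^ 9 ≤ h ^ 11 := by
      rw [← pow_succ']
      exact pow_le_pow_right₀ hh1 (by norm_num)
    have h5 : 0 ≤ (|μ (toR e)| + 4) * k := by positivity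
    have h6 : 0 ≤ h ^ 11 := by positivity
    linarith
  · push Not at hc
    have hk9 : h ≤ (k : ℝ) := (le_self_pow₀ hh1 (by norm_num)).trans hc
    have hkpos : (0 : ℝ) < k := by linarith
    have h2 := hK k (by exact_mod_cast hhK.trans hk9)
    rw [div_lt_iff₀ hkpos] at h2
    have h3 := mean_med hM hh1 (k • e) (by rw [hnk]; exact hk)
    rw [hnk, abs_le] at h3
    have h4 : sg h k ≤ k + h ^ 11 := by
      unfold sg
      have h5 : h ^ 4 ≤ √(k : ℝ) := by
        apply Real.le_sqrt_of_sq_le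
        calc (h ^ 4) ^ 2 = h ^ 8 := by ring
          _ ≤ h ^ 9 := pow_le_pow_right₀ hh1 (by norm_num)
          _ ≤ k := hc
      have h6 : h ^ 4 * √(k : ℝ) ≤ √(k : ℝ) * √(k : ℝ) :=
        mul_le_mul_of_nonneg_right h5 (Real.sqrt_nonneg _)
      rw [Real.mul_self_sqrt hk0] at h6
      linarith
    have h7 : 0 ≤ h ^ 11 := by positivity
    linarith [h3.2]

/-- PROOF. Split `z = (z₁, z₂)` in its two coordinates (`E_T_add`, `E_T_neg`); for `k = |z_i| ≥ h ^ 9` use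
`E T(0, k e_i) ≤ m (k e_i) + 3 sg h k` and `m (k e_i) ≤ (μ e_i + 1) k` for large `k`; for `k < h ^ 9` use `E_T_le`. -/
theorem mean_lin (hmu : MuM μ m) (hN : HasN Q m) :
    ∃ C : ℝ, 1 ≤ C ∧ ∀ᶠ h : ℝ in atTop, ∀ (a : ℝ) (M : Mdl a h), GoodN Q m M → ∀ z : V, nm z ≤ h ^ 2500 →
      M.E (fun τ => T τ 0 z) ≤ C * nm z + h ^ 20 := by
  obtain ⟨C₁, hC₁, h1⟩ := Med2_line hmu (dir true) (nm_dir true)
  obtain ⟨C₂, hC₂, h2⟩ := Med2_line hmu (dir false) (nm_dir false)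
  refine ⟨max C₁ C₂, hC₁.trans (le_max_left _ _), ?_⟩
  filter_upwards [h1, h2, eventually_ge_atTop (8 : ℝ)] with h h1 h2 h8 a M hM z hz
  have e : z = z.2 • dir true + z.1 • dir false := by
    apply Prod.ext
    · simp [dir]
    · simp [dir]
  have hz1 : ((z.1.natAbs : ℕ) : ℝ) = |(z.1 : ℝ)| := by
    rw [Nat.cast_natAbs, Int.cast_abs]
  have hz2 : ((z.2.natAbs : ℕ) : ℝ) = |(z.2 : ℝ)| := by
    rw [Nat.cast_natAbs, Int.cast_abs]
  have hn : nm z = |(z.1 : ℝ)| + |(z.2 : ℝ)| := rfl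
  have hb1 := abs_nonneg (z.1 : ℝ)
  have hb2 := abs_nonneg (z.2 : ℝ)
  have h3 : M.E (fun τ => T τ 0 z) ≤ M.E (fun τ => T τ 0 (z.2.natAbs • dir true)) +
      M.E (fun τ => T τ 0 (z.1.natAbs • dir false)) := by
    conv_lhs => rw [e]
    refine (E_T_add hM _ _).trans (le_of_eq ?_)
    rw [Med2_natAbs hM, Med2_natAbs hM]
  have h4 := h1 a M hM z.2.natAbs (by rw [hz2]; linarith)
  have h5 := h2 a M hM z.1.natAbs (by rw [hz1]; linarith)
  rw [hz2] at h4
  rw [hz1] at h5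
  have h6 : C₁ * |(z.2 : ℝ)| ≤ max C₁ C₂ * |(z.2 : ℝ)| :=
    mul_le_mul_of_nonneg_right (le_max_left _ _) hb2
  have h7 : C₂ * |(z.1 : ℝ)| ≤ max C₁ C₂ * |(z.1 : ℝ)| :=
    mul_le_mul_of_nonneg_right (le_max_right _ _) hb1
  have h9 : (8 : ℝ) * h ^ 11 ≤ h ^ 20 := by
    have e1 : h ^ 20 = h ^ 9 * h ^ 11 := by ring
    rw [e1]
    apply mul_le_mul_of_nonneg_right _ (by positivity)
    calc (8 : ℝ) ≤ h := h8
      _ ≤ h ^ 9 := le_self_pow₀ (by linarith) (by norm_num)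
  rw [hn]
  linarith

/-- The medians in the real direction `d`. PROOF. Choose `q : V` and `k ≥ 1` with `rn (d - q / k)` small, so that
`μ q / k ≤ μ d + ε / 8` (continuity). For `r` large let `h = r^(1/1000)` and a good model at scale `h`; `z = j • q + s` with
`j = ⌊r / k⌋`, `nm s ≤ η r + C`; `m z ≤ E T(0,z) + 3 sg ≤ E T(0, j q) + E T(0, s) + 3 sg ≤ m (j • q) + C nm s + small` by
`mean_med`, `E_T_add`, `mean_lin`, and `m (j • q) ≤ j (μ q + small)`. -/
theorem med_dir (hmu : MuM μ m) (hN : HasN Q m) (d : ℝ × ℝ) (ε : ℝ) (hε : 0 < ε) :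
    ∃ r₀ : ℝ, ∀ r : ℝ, r₀ ≤ r → ∀ z : V, rn (toR z - r • d) ≤ 10 → m z ≤ r * (μ d + ε) := by
  obtain ⟨C, hC1, hlin⟩ := mean_lin hmu hN
  -- continuity
  obtain ⟨η, hη0, hη⟩ := Metric.continuousAt_iff.1 (hmu.cont.continuousAt (x := d)) (ε / 8)
    (by positivity)
  -- the rational direction
  obtain ⟨k, hk⟩ := exists_nat_gt (max (8 * C / ε) (max (1 / η) 1))
  have hk1 : 8 * C / ε < k := (le_max_left _ _).trans_lt hk
  have hk2 : 1 / η < k := ((le_max_left _ _).trans (le_max_right _ _)).trans_lt hk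
  have hk3 : (1 : ℝ) < k := ((le_max_right _ _).trans (le_max_right _ _)).trans_lt hk
  have hk0 : (0 : ℝ) < k := by linarith
  obtain ⟨q, hq⟩ := exists_round ((k : ℝ) • d)
  -- `μ (q / k)` is near `μ d`
  have hmuq : μ (toR q) ≤ k * (μ d + ε / 8) := by
    have h1 : toR q = (k : ℝ) • ((k : ℝ)⁻¹ • toR q) := by
      rw [smul_smul, mul_inv_cancel₀ hk0.ne', one_smul]
    have h2 : dist ((k : ℝ)⁻¹ • toR q) d < η := by
      rw [dist_eq_norm]
      refine (Med2_norm_le _).trans_lt ?_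
      have h3 : (k : ℝ)⁻¹ • toR q - d = (k : ℝ)⁻¹ • (toR q - (k : ℝ) • d) := by
        rw [smul_sub, smul_smul, inv_mul_cancel₀ hk0.ne', one_smul]
      rw [h3, rn_smul, abs_of_pos (inv_pos.2 hk0)]
      calc (k : ℝ)⁻¹ * rn (toR q - (k : ℝ) • d) ≤ (k : ℝ)⁻¹ * 1 :=
            mul_le_mul_of_nonneg_left hq (inv_nonneg.2 hk0.le)
        _ = 1 / k := by rw [mul_one, one_div]
        _ < η := by
          rw [div_lt_iff₀ hk0]
          rw [div_lt_iff₀ hη0] at hk2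
          linarith
    have h3 := hη h2
    rw [Real.dist_eq] at h3
    have h4 := (abs_lt.1 h3).2
    rw [h1, hmu.hom _ _ hk0.le]
    exact mul_le_mul_of_nonneg_left (by linarith) hk0.le
  -- the limit along `q`
  have h1 := (hmu.lim q).eventually (gt_mem_nhds (show μ (toR q) < μ (toR q) + ε / 8 by linarith))
  obtain ⟨J, hJ⟩ := eventually_atTop.1 h1
  obtain ⟨h₁, hh₁⟩ := eventually_atTop.1 (hN.and hlin)
  obtain ⟨D, hD⟩ : ∃ D : ℝ, D = nm q + rn d + 20 := ⟨_, rfl⟩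
  have hnq := nm_nonneg q
  have hrd := rn_nonneg d
  have hD1 : 1 ≤ D := by rw [hD]; linarith
  obtain ⟨x, hx⟩ : ∃ x : ℝ, x = μ (toR q) + ε / 8 := ⟨_, rfl⟩
  obtain ⟨K, hK⟩ : ∃ K : ℝ, K = |x| + C * (10 + nm q) + 1 + 6 * (√D + 1) := ⟨_, rfl⟩
  have hsD : 0 ≤ √D := Real.sqrt_nonneg D
  have hK0 : 0 < K := by rw [hK]; positivity
  obtain ⟨H, hH⟩ : ∃ H : ℝ, H = max (max h₁ 1) (max D (2 * K / ε)) := ⟨_, rfl⟩
  refine ⟨max (H ^ 1000) (k * (J + 2)), fun r hr z hz => ?_⟩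
  have hr1 : H ^ 1000 ≤ r := (le_max_left _ _).trans hr
  have hr2 : (k : ℝ) * (J + 2) ≤ r := (le_max_right _ _).trans hr
  have hr0 : 0 < r := lt_of_lt_of_le (by positivity) hr2
  obtain ⟨h, hh⟩ : ∃ h : ℝ, h = r ^ (((1000 : ℕ) : ℝ)⁻¹) := ⟨_, rfl⟩
  have hpow : h ^ 1000 = r := by
    rw [hh]
    exact Real.rpow_inv_natCast_pow hr0.le (by norm_num)
  have hh0 : 0 ≤ h := by
    rw [hh]
    positivity
  have hge : H ≤ h := by
    by_contra hcon
    have h1 := pow_lt_pow_left₀ (not_le.1 hcon) hh0 (show (1000 : ℕ) ≠ 0 by norm_num)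
    rw [hpow] at h1
    linarith
  rw [hH] at hge
  have hge1 : h₁ ≤ h := (le_max_left _ _).trans ((le_max_left _ _).trans hge)
  have hgeo : 1 ≤ h := (le_max_right _ _).trans ((le_max_left _ _).trans hge)
  have hgeD : D ≤ h := (le_max_left _ _).trans ((le_max_right _ _).trans hge)
  have hgeK : 2 * K / ε ≤ h := (le_max_right _ _).trans ((le_max_right _ _).trans hge)
  obtain ⟨⟨a, M, hM⟩, hlin'⟩ := hh₁ h hge1
  have hmean := hlin' a M hM
  have hr1' : 1 ≤ r := by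
    rw [← hpow]
    exact one_le_pow₀ hgeo
  have hDr : D * r ≤ h ^ 2500 := by
    calc D * r ≤ h * h ^ 1000 := by
          rw [hpow]
          exact mul_le_mul_of_nonneg_right hgeD hr0.le
      _ = h ^ 1001 := by ring
      _ ≤ h ^ 2500 := pow_le_pow_right₀ hgeo (by norm_num)
  -- the decomposition
  obtain ⟨j, hj⟩ : ∃ j : ℕ, j = ⌊r / k⌋₊ := ⟨_, rfl⟩
  have hjle : (j : ℝ) ≤ r / k := by
    rw [hj]
    exact Nat.floor_le (by positivity)
  have hjge : r / k < j + 1 := by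
    rw [hj]
    exact Nat.lt_floor_add_one _
  have hrk : r / k ≤ r := by
    rw [div_le_iff₀ hk0]
    nlinarith
  have hJj : (J : ℝ) + 1 ≤ j := by
    have h2 : (J : ℝ) + 2 ≤ r / k := by
      rw [le_div_iff₀ hk0]
      linarith
    linarith
  have hj0 : (0 : ℝ) < j := by
    have := Nat.cast_nonneg (α := ℝ) J
    linarith
  obtain ⟨s, hs⟩ : ∃ s : V, s = z - j • q := ⟨_, rfl⟩
  have hzs : z = j • q + s := by rw [hs]; abel
  have hnz : nm z ≤ D * r := by
    have h2 : toR z = (toR z - r • d) + r • d := by abel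
    rw [nm_eq_rn, h2]
    refine (rn_add_le _ _).trans ?_
    rw [rn_smul, abs_of_pos hr0, hD]
    nlinarith
  have hnj : nm (j • q) ≤ D * r := by
    rw [Med2_nm_nsmul, hD]
    nlinarith
  have hns : nm s ≤ 10 + r / k + nm q := by
    have h2 : toR s = (toR z - r • d) + ((-(r / k)) • (toR q - (k : ℝ) • d) +
        (r / k - j) • toR q) := by
      rw [hs, toR_sub, toR_nsmul, smul_sub, smul_smul, sub_smul]
      have h3 : -(r / k) * (k : ℝ) = -r := by field_simp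
      rw [h3, neg_smul, neg_smul]
      abel
    rw [nm_eq_rn, h2]
    refine (rn_add_le _ _).trans ?_
    have h3 := rn_add_le ((-(r / k)) • (toR q - (k : ℝ) • d)) ((r / k - j) • toR q)
    have h4 : rn ((-(r / k)) • (toR q - (k : ℝ) • d)) ≤ r / k := by
      rw [rn_smul, abs_neg, abs_of_nonneg (by positivity)]
      have : 0 ≤ r / k := by positivity
      nlinarith
    have h5 : rn ((r / k - j) • toR q) ≤ nm q := by
      rw [rn_smul, abs_of_nonneg (by linarith), nm_eq_rn]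
      have := rn_nonneg (toR q)
      nlinarith
    linarith
  have hns' : nm s ≤ h ^ 2500 := by
    refine (hns.trans ?_).trans hDr
    rw [hD]
    nlinarith
  -- the estimates
  have e1 := mean_med hM hgeo z (hnz.trans hDr)
  have e2 := mean_med hM hgeo (j • q) (hnj.trans hDr)
  have e3 : M.E (fun τ => T τ 0 z) ≤ M.E (fun τ => T τ 0 (j • q)) + M.E (fun τ => T τ 0 s) := by
    conv_lhs => rw [hzs]
    exact E_T_add hM _ _
  have e4 := hmean s hns'
  have e5 : m (j • q) ≤ r / k * x + |x| := by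
    have h2 := hJ j (by
      have : (J : ℝ) ≤ j := by linarith
      exact_mod_cast this)
    rw [div_lt_iff₀ hj0, ← hx] at h2
    have h3 : x * (j - r / k) ≤ |x| := by
      refine (le_abs_self _).trans ?_
      rw [abs_mul]
      have h4 : |(j : ℝ) - r / k| ≤ 1 := by
        rw [abs_le]
        constructor <;> linarith
      calc |x| * |(j : ℝ) - r / k| ≤ |x| * 1 := mul_le_mul_of_nonneg_left h4 (abs_nonneg _)
        _ = |x| := mul_one _
    nlinarith
  have hsg : ∀ ρ : ℝ, ρ ≤ D * r → sg h ρ ≤ (√D + 1) * h ^ 504 := by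
    intro ρ hρ
    refine (sg_mono hgeo hρ).trans ?_
    unfold sg
    have h2 : √(D * r) = √D * h ^ 500 := by
      rw [Real.sqrt_mul (by linarith), ← hpow, show h ^ 1000 = (h ^ 500) ^ 2 by ring,
        Real.sqrt_sq (by positivity)]
    rw [h2]
    have h3 : h ^ 11 ≤ h ^ 504 := pow_le_pow_right₀ hgeo (by norm_num)
    calc h ^ 4 * (√D * h ^ 500) + h ^ 11 = √D * h ^ 504 + h ^ 11 := by ring
      _ ≤ (√D + 1) * h ^ 504 := by linarith
  have e6 := hsg _ hnz
  have e7 := hsg _ hnj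
  have hp1 : 1 ≤ h ^ 504 := one_le_pow₀ hgeo
  have hp20 : h ^ 20 ≤ h ^ 504 := pow_le_pow_right₀ hgeo (by norm_num)
  have e8 : C * nm s ≤ C * (10 + nm q) * h ^ 504 + ε / 8 * r := by
    have h2 : C * nm s ≤ C * (10 + r / k + nm q) := mul_le_mul_of_nonneg_left hns (by linarith)
    have h3 : C * (r / k) ≤ ε / 8 * r := by
      rw [div_lt_iff₀ hε] at hk1
      rw [← mul_div_assoc, div_le_iff₀ hk0]
      nlinarith
    have h4 : C * (10 + nm q) * 1 ≤ C * (10 + nm q) * h ^ 504 :=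
      mul_le_mul_of_nonneg_left hp1 (by positivity)
    linarith
  have e9 : |x| * 1 ≤ |x| * h ^ 504 := mul_le_mul_of_nonneg_left hp1 (abs_nonneg _)
  have e10 : r / k * x ≤ r * (μ d + ε / 8) + ε / 8 * r := by
    have h2 : 0 ≤ r / k := by positivity
    have h3 : x ≤ k * (μ d + ε / 8) + ε / 8 := by rw [hx]; linarith
    have h4 := mul_le_mul_of_nonneg_left h3 h2
    have h5 : r / k * (k * (μ d + ε / 8) + ε / 8) = r * (μ d + ε / 8) + r / k * (ε / 8) := by
      field_simp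
    have h6 : r / k * (ε / 8) ≤ r * (ε / 8) := mul_le_mul_of_nonneg_right hrk (by positivity)
    linarith
  have e11 : K * h ^ 504 ≤ ε / 2 * r := by
    rw [div_le_iff₀ hε] at hgeK
    have h2 : K ≤ ε / 2 * h := by linarith
    calc K * h ^ 504 ≤ ε / 2 * h * h ^ 504 := mul_le_mul_of_nonneg_right h2 (by positivity)
      _ = ε / 2 * h ^ 505 := by ring
      _ ≤ ε / 2 * h ^ 1000 := by
        apply mul_le_mul_of_nonneg_left _ (by positivity)
        exact pow_le_pow_right₀ hgeo (by norm_num)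
      _ = ε / 2 * r := by rw [hpow]
  have e12 : K * h ^ 504 = |x| * h ^ 504 + C * (10 + nm q) * h ^ 504 + h ^ 504 +
      6 * ((√D + 1) * h ^ 504) := by
    rw [hK]
    ring
  rw [abs_le] at e1 e2
  have e13 := mul_pos hε hr0
  linarith [e1.1, e2.2]

/-- The lower bound holds with overwhelming probability. PROOF. For `x, z` in the box put `w = z - x`,
`nm w ≤ 2 h ^ 2400 ≤ h ^ 2500`. If `nm w ≥ C`: `μ w ≤ m w + C (nm w)^0.502`, `(nm w)^0.002 ≤ h ^ 5`, and with probability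
`≥ 1 - exp (-h)` `T x z > m w - 4 sg h (nm w)` (`low_med`, `P_T_sub`). If `nm w < C`: `μ w ≤ C' ≤ h ^ 12`. Union over the
at most `h ^ 9700` pairs. -/
theorem LT_prob (hmu : MuM μ m) (hN : HasN Q m) :
    ∀ᶠ h : ℝ in atTop, ∀ (a : ℝ) (M : Mdl a h), GoodN Q m M →
      M.P (fun τ => ¬ LT μ h τ) ≤ Real.exp (-(h / 2)) := by
  obtain ⟨C, hC1, hC⟩ := mu_le_med hmu hN
  obtain ⟨C', hC'1, hC'⟩ := mu_le hmu
  have hexp : ∀ᶠ h : ℝ in atTop, h ^ 9700 * Real.exp (-h) ≤ Real.exp (-(h / 2)) := by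
    have h1 := Real.tendsto_pow_mul_exp_neg_atTop_nhds_zero 9700
    have h2 : Tendsto (fun h : ℝ => h / 2) atTop atTop := tendsto_id.atTop_div_const (by norm_num)
    have h3 := (h1.comp h2).eventually (gt_mem_nhds (show (0 : ℝ) < (2 ^ 9700)⁻¹ by positivity))
    filter_upwards [h3] with h h4
    simp only [Function.comp_apply] at h4
    have h5 : h ^ 9700 * Real.exp (-h) =
        2 ^ 9700 * ((h / 2) ^ 9700 * Real.exp (-(h / 2))) * Real.exp (-(h / 2)) := by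
      have h6 : Real.exp (-h) = Real.exp (-(h / 2)) * Real.exp (-(h / 2)) := by
        rw [← Real.exp_add]
        congr 1
        ring
      rw [h6, div_pow]
      have h7 : (2 : ℝ) ^ 9700 ≠ 0 := by positivity
      generalize (2 : ℝ) ^ 9700 = P at h7 ⊢
      field_simp
    rw [h5]
    have h6 : 2 ^ 9700 * ((h / 2) ^ 9700 * Real.exp (-(h / 2))) ≤ 1 := by
      have h7 : (0 : ℝ) < 2 ^ 9700 := by positivity
      generalize (2 : ℝ) ^ 9700 = P at h4 h7 ⊢
      have h8 := mul_le_mul_of_nonneg_left h4.le h7.le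
      rwa [mul_inv_cancel₀ h7.ne'] at h8
    have h7 := Real.exp_pos (-(h / 2))
    nlinarith
  filter_upwards [hexp, eventually_ge_atTop (max (C' * C) (C + 100))] with h hexp hh a M hM
  have hhC' : C' * C ≤ h := (le_max_left _ _).trans hh
  have hhC : C + 100 ≤ h := (le_max_right _ _).trans hh
  have hh1 : 1 ≤ h := by linarith
  have hh0 : 0 < h := by linarith
  -- the box
  obtain ⟨N, hN'⟩ : ∃ N : ℕ, N = ⌈h ^ 2400⌉₊ := ⟨_, rfl⟩
  have hN1 : h ^ 2400 ≤ N := by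
    rw [hN']
    exact Nat.le_ceil _
  have hN2 : (N : ℝ) < h ^ 2400 + 1 := by
    rw [hN']
    exact Nat.ceil_lt_add_one (by positivity)
  obtain ⟨B, hB⟩ : ∃ B : Finset V, B = Finset.Icc (-(N : ℤ)) N ×ˢ Finset.Icc (-(N : ℤ)) N :=
    ⟨_, rfl⟩
  have hmem : ∀ x : V, nm x ≤ h ^ 2400 → x ∈ B := by
    intro x hx
    have h1 : |(x.1 : ℝ)| ≤ N := by
      have := abs_nonneg (x.2 : ℝ)
      unfold nm at hx
      linarith
    have h2 : |(x.2 : ℝ)| ≤ N := by
      have := abs_nonneg (x.1 : ℝ)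
      unfold nm at hx
      linarith
    rw [hB, Finset.mem_product, Finset.mem_Icc, Finset.mem_Icc]
    rw [abs_le] at h1 h2
    refine ⟨⟨?_, ?_⟩, ⟨?_, ?_⟩⟩
    · have := h1.1; exact_mod_cast this
    · have := h1.2; exact_mod_cast this
    · have := h2.1; exact_mod_cast this
    · have := h2.2; exact_mod_cast this
  have hBc : (B.card : ℝ) ≤ h ^ 4850 := by
    rw [hB, Finset.card_product, Int.card_Icc]
    have h1 : ((((N : ℤ) + 1 - -(N : ℤ)).toNat : ℕ) : ℝ) = 2 * N + 1 := by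
      have h2 : ((N : ℤ) + 1 - -(N : ℤ)).toNat = 2 * N + 1 := by omega
      rw [h2]
      push_cast
      ring
    push_cast
    rw [h1]
    have h2 : (1 : ℝ) ≤ h ^ 2400 := one_le_pow₀ hh1
    have h3 : 2 * (N : ℝ) + 1 ≤ 5 * h ^ 2400 := by linarith
    have h4 : 5 * h ^ 2400 ≤ h ^ 2401 := by
      rw [pow_succ]
      nlinarith
    have h5 : (0 : ℝ) ≤ 2 * (N : ℝ) + 1 := by positivity
    calc (2 * (N : ℝ) + 1) * (2 * (N : ℝ) + 1) ≤ h ^ 2401 * h ^ 2401 :=
          mul_le_mul (h3.trans h4) (h3.trans h4) h5 (by positivity)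
      _ = h ^ 4802 := by ring
      _ ≤ h ^ 4850 := pow_le_pow_right₀ hh1 (by norm_num)
  -- one pair
  have hpair : ∀ x z : V, nm x ≤ h ^ 2400 → nm z ≤ h ^ 2400 →
      M.P (fun τ => T τ x z + er h (nm (z - x)) < μ (toR (z - x))) ≤ Real.exp (-h) := by
    intro x z hx hz
    rw [P_T_sub hM x z (fun t => t + er h (nm (z - x)) < μ (toR (z - x)))]
    obtain ⟨w, hw⟩ : ∃ w : V, w = z - x := ⟨_, rfl⟩
    rw [← hw]
    have hnw : nm w ≤ h ^ 2500 := by
      rw [hw, sub_eq_add_neg]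
      refine (nm_add_le _ _).trans ?_
      rw [nm_neg]
      calc nm z + nm x ≤ 2 * h ^ 2400 := by linarith
        _ ≤ h * h ^ 2400 := by
          apply mul_le_mul_of_nonneg_right _ (by positivity)
          linarith
        _ = h ^ 2401 := by ring
        _ ≤ h ^ 2500 := pow_le_pow_right₀ hh1 (by norm_num)
    have hnw0 := nm_nonneg w
    by_cases hc : C ≤ nm w
    · have h1 := hC w hc
      refine le_trans (M.P_mono fun τ _ hτ => ?_) (low_med hM hh1 w hnw)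
      have h2 : (nm w) ^ (502 / 1000 : ℝ) ≤ h ^ 5 * √(nm w) := by
        have hpos : 0 < nm w := by linarith
        have h3 : (nm w) ^ (502 / 1000 : ℝ) = (nm w) ^ (2 / 1000 : ℝ) * √(nm w) := by
          rw [Real.sqrt_eq_rpow, ← Real.rpow_add hpos]
          norm_num
        rw [h3]
        apply mul_le_mul_of_nonneg_right _ (Real.sqrt_nonneg _)
        calc (nm w) ^ (2 / 1000 : ℝ) ≤ (h ^ 2500) ^ (2 / 1000 : ℝ) :=
              Real.rpow_le_rpow hnw0 hnw (by norm_num)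
          _ = h ^ 5 := by
            rw [← Real.rpow_natCast h 2500, ← Real.rpow_mul hh0.le,
              show ((2500 : ℕ) : ℝ) * (2 / 1000 : ℝ) = ((5 : ℕ) : ℝ) by norm_num,
              Real.rpow_natCast]
      have h4 : C * (nm w) ^ (502 / 1000 : ℝ) ≤ C * (h ^ 5 * √(nm w)) :=
        mul_le_mul_of_nonneg_left h2 (by linarith)
      unfold er at hτ
      unfold sg
      have h5 : C * (h ^ 5 * √(nm w)) + 4 * (h ^ 4 * √(nm w)) ≤ h ^ 7 * √(nm w) := by
        have h6 : C * h ^ 5 + 4 * h ^ 4 ≤ h ^ 7 := by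
          have h7 : h ^ 4 ≤ h ^ 5 := pow_le_pow_right₀ hh1 (by norm_num)
          have h8 : (C + 4) * h ^ 5 ≤ h ^ 2 * h ^ 5 := by
            apply mul_le_mul_of_nonneg_right _ (by positivity)
            nlinarith
          have h9 : h ^ 2 * h ^ 5 = h ^ 7 := by ring
          linarith
        have h7 := mul_le_mul_of_nonneg_right h6 (Real.sqrt_nonneg (nm w))
        linarith
      have h6 : 4 * h ^ 11 ≤ h ^ 12 := by
        rw [pow_succ h 11]
        have : 0 < h ^ 11 := by positivity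
        nlinarith
      linarith
    · push Not at hc
      have h1 : μ (toR w) ≤ h ^ 12 := by
        have h2 := (le_abs_self _).trans (hC' (toR w))
        rw [← nm_eq_rn] at h2
        calc μ (toR w) ≤ C' * nm w := h2
          _ ≤ C' * C := mul_le_mul_of_nonneg_left hc.le (by linarith)
          _ ≤ h := hhC'
          _ ≤ h ^ 12 := le_self_pow₀ hh1 (by norm_num)
      have h2 : M.P (fun τ => T τ 0 w + er h (nm w) < μ (toR w)) ≤ M.P (fun _ => False) := by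
        refine M.P_mono fun τ hτ h3 => ?_
        have h4 := T_nonneg hτ hM.apos.le 0 w
        have h5 : h ^ 12 ≤ er h (nm w) := by
          unfold er
          have : 0 ≤ h ^ 7 * √(nm w) := by positivity
          linarith
        linarith
      refine h2.trans ?_
      rw [M.P_def]
      simp only [if_false]
      rw [M.E_const]
      exact (Real.exp_pos _).le
  -- the union
  have hun : M.P (fun τ => ¬ LT μ h τ) ≤ M.P (fun τ => ∃ i ∈ B ×ˢ B,
      (nm (i.1 : V) ≤ h ^ 2400 ∧ nm (i.2 : V) ≤ h ^ 2400) ∧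
        T τ i.1 i.2 + er h (nm (i.2 - i.1)) < μ (toR (i.2 - i.1))) := by
    refine M.P_mono fun τ _ hτ => ?_
    unfold LT at hτ
    push Not at hτ
    obtain ⟨x, z, hx, hz, h1⟩ := hτ
    exact ⟨(x, z), Finset.mem_product.2 ⟨hmem x hx, hmem z hz⟩, ⟨hx, hz⟩, h1⟩
  refine hun.trans ((M.P_exists_le _ _).trans ?_)
  have hone : ∀ i ∈ B ×ˢ B, M.P (fun τ => (nm (i.1 : V) ≤ h ^ 2400 ∧ nm (i.2 : V) ≤ h ^ 2400) ∧
        T τ i.1 i.2 + er h (nm (i.2 - i.1)) < μ (toR (i.2 - i.1))) ≤ Real.exp (-h) := by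
    intro i _
    by_cases hi : nm (i.1 : V) ≤ h ^ 2400 ∧ nm (i.2 : V) ≤ h ^ 2400
    · exact le_trans (M.P_mono fun τ _ h1 => h1.2) (hpair i.1 i.2 hi.1 hi.2)
    · refine le_trans (M.P_mono (q := fun _ => False) fun τ _ h1 => hi h1.1) ?_
      rw [M.P_def]
      simp only [if_false]
      rw [M.E_const]
      exact (Real.exp_pos _).le
  refine (Finset.sum_le_sum hone).trans ?_
  rw [Finset.sum_const, Finset.card_product, nsmul_eq_mul]
  push_cast
  have h1 : (B.card : ℝ) * B.card ≤ h ^ 9700 := by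
    calc (B.card : ℝ) * B.card ≤ h ^ 4850 * h ^ 4850 :=
          mul_le_mul hBc hBc (by positivity) (by positivity)
      _ = h ^ 9700 := by ring
  exact (mul_le_mul_of_nonneg_right h1 (Real.exp_pos _).le).trans hexp

end Pool.Agent.W_1b8d5d_np
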