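import Pool.Agent.W_1b8d5d_h85.EfronStein
import Pool.Agent.W_1b8d5d_h85.ExpConc

/-!
MP_1b8d5d_pr, [NP]: concentration of minima of sums over small sets of coordinates (abstract form of passage times with a
bounded number of edges).
-/

set_option autoImplicit false

namespace Pool.Agent.W_1b8d5d_np

open Finset Pool.Agent.W_1b8d5d_h85

variable {J β : Type} [Fintype J] [DecidableEq J] [Fintype β]

/-- Every configuration has a set of at most `L` coordinates such that the change of `f` is at most the change of the sum of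
the weights over this set. -/
def Sel (W : β → ℝ) (L : ℕ) (f : (J → β) → ℝ) : Prop :=
  ∀ ω, ∃ s : Finset J, s.card ≤ L ∧ ∀ ω', f ω' ≤ f ω + ∑ i ∈ s, (W (ω' i) - W (ω i))

variable {W : β → ℝ} {L : ℕ} {f : (J → β) → ℝ} {H : ℝ}

omit [Fintype J] [Fintype β] in
theorem Sel.upd (h : Sel W L f) (hH : 0 ≤ H) (hW : ∀ u v, W u - W v ≤ H) (ω : J → β) :
    ∃ s : Finset J, s.card ≤ L ∧
      ∀ i u, max (f (Function.update ω i u) - f ω) 0 ≤ if i ∈ s then H else 0 := by
  obtain ⟨s, hs, hf⟩ := h ω
  refine ⟨s, hs, fun i u => ?_⟩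
  have h1 := hf (Function.update ω i u)
  have h2 : ∑ j ∈ s, (W (Function.update ω i u j) - W (ω j)) = if i ∈ s then W u - W (ω i) else 0 := by
    have h3 : ∀ j ∈ s, W (Function.update ω i u j) - W (ω j) = if j = i then W u - W (ω i) else 0 := by
      intro j _
      by_cases hj : j = i
      · subst hj
        rw [if_pos rfl, Function.update_self]
      · rw [if_neg hj, Function.update_of_ne hj, sub_self]
    rw [sum_congr rfl h3, sum_ite_eq']
  rw [h2] at h1
  split_ifs with hi
  · rw [if_pos hi] at h1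
    exact max_le (by linarith [hW u (ω i)]) hH
  · rw [if_neg hi] at h1
    exact max_le (by linarith) le_rfl

omit [Fintype J] [Fintype β] in
theorem Sel.abs_le (h : Sel W L f) (hH : 0 ≤ H) (hW : ∀ u v, W u - W v ≤ H) (ω : J → β) (i : J) (u : β) :
    |f (Function.update ω i u) - f ω| ≤ H := by
  have key : ∀ (ω : J → β) (i : J) (u : β), f (Function.update ω i u) - f ω ≤ H := by
    intro ω i u
    obtain ⟨s, -, hf⟩ := h.upd hH hW ω
    have h1 := hf i u
    have h2 : (if i ∈ s then H else 0) ≤ H := by split_ifs <;> linarith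
    exact (le_max_left _ _).trans (h1.trans h2)
  rw [abs_sub_le_iff]
  refine ⟨key ω i u, ?_⟩
  have h1 := key (Function.update ω i u) i (ω i)
  rwa [Function.update_idem, Function.update_eq_self] at h1

theorem Sel.sum_sq [Nonempty β] (h : Sel W L f) (hH : 0 ≤ H) (hW : ∀ u v, W u - W v ≤ H) (ω : J → β) :
    ∑ i, Ex (fun u => (max (f (Function.update ω i u) - f ω) 0) ^ 2) ≤ L * H ^ 2 := by
  obtain ⟨s, hs, hf⟩ := h.upd hH hW ω
  have h1 : ∀ i, Ex (fun u => (max (f (Function.update ω i u) - f ω) 0) ^ 2) ≤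
      if i ∈ s then H ^ 2 else 0 := by
    intro i
    refine Ex_le_of_le fun u => ?_
    have h2 := hf i u
    have h3 : (0 : ℝ) ≤ max (f (Function.update ω i u) - f ω) 0 := le_max_right _ _
    split_ifs with hi
    · rw [if_pos hi] at h2
      exact pow_le_pow_left₀ h3 h2 2
    · rw [if_neg hi] at h2
      rw [le_antisymm h2 h3]
      simp
  refine (sum_le_sum fun i _ => h1 i).trans ?_
  rw [← sum_filter, sum_const, nsmul_eq_mul]
  refine mul_le_mul_of_nonneg_right ?_ (sq_nonneg H)
  have h4 : (univ.filter fun i => i ∈ s) = s := by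
    ext i
    simp
  rw [h4]
  exact_mod_cast hs

theorem Sel.Vr_le [Nonempty β] (h : Sel W L f) (hH : 0 ≤ H) (hW : ∀ u v, W u - W v ≤ H) :
    Vr f ≤ L * H ^ 2 := by
  refine (efron_stein' f).trans ?_
  rw [← Ex_sum]
  exact Ex_le_of_le fun ω => h.sum_sq hH hW ω

theorem Sel.conc [Nonempty β] (h : Sel W L f) (hH : 0 < H) (hL : 1 ≤ L) (hW : ∀ u v, W u - W v ≤ H) (s : ℝ) :
    Pr (fun ω => s ≤ |f ω - Ex f|) ≤ 4 * Real.exp (-(s / (2 * (H * Real.sqrt L)))) := by
  have hL' : (1 : ℝ) ≤ L := by exact_mod_cast hL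
  have h1 : Real.sqrt (L * H ^ 2) = H * Real.sqrt L := by
    rw [Real.sqrt_mul (by positivity), Real.sqrt_sq hH.le, mul_comm]
  have h2 := exp_conc f (h.sum_sq hH.le hW) (h.abs_le hH.le hW) (c := H) (by nlinarith [sq_nonneg H])
    (by positivity) s
  rwa [h1] at h2

end Pool.Agent.W_1b8d5d_np
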