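import Pool.Agent.W_1b8d5d_h85.FLin
import Pool.Agent.W_1b8d5d_h85.Grid3

/-!
MP_1b8d5d_pr, [NP] (proofs rows 574 and helper11's row): the limit shape of planar first-passage percolation has no
corner. Definitions and the interface.

SCALES. `h : ℝ` is a large real number, the model at scale `h` has weights in `[a, h]` with some `0 < a`; lengths are
natural powers of `h`; the main length is `n` with `h ^ 900 ≤ n ≤ h ^ 1000`. Overwhelming events fail with probability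
`≤ exp (-(h / c))`.
-/

set_option autoImplicit false

namespace Pool.Agent.W_1b8d5d_np

open Finset Filter Topology
open Pool.Agent.W_1b8d5d_h85

/-- Numerical parameters of the law: low weights `≤ tl` have probability `≥ pl`, most of the weights are `≥ th`. -/
structure Qn where
  tl : ℝ
  th : ℝ
  pl : ℝ
  K : ℝ
  htl : 0 ≤ tl
  hlt : tl < th
  hpl : 0 < pl
  hK : 1 ≤ K

/-- The standard deviation allowed at distance `r` in the model at scale `h`. -/
noncomputable def sg (h r : ℝ) : ℝ := h ^ 4 * √r + h ^ 11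

/-- The model `M` at scale `h` is good, for the medians `m`. -/
structure GoodN (Q : Qn) (m : V → ℝ) {a h : ℝ} (M : Mdl a h) : Prop where
  apos : 0 < a
  alt : a ≤ h
  inv : ∀ (z : V) (F : Env → ℝ), M.E (fun τ => F (sh z τ)) = M.E F
  rfl' : ∀ F : Env → ℝ, M.E (fun τ => F (rf τ)) = M.E F
  indep : ∀ A B : Set Edge, Disjoint A B → (∀ e ∈ A ∪ B, nm e.1 ≤ h ^ 4000) →
    ∀ F G : Env → ℝ, DependsOn F A → DependsOn G B →
      M.E (fun τ => F τ * G τ) = M.E F * M.E G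
  medU : ∀ z, nm z ≤ h ^ 2500 → 49 / 100 ≤ M.P (fun τ => T τ 0 z ≤ m z + h)
  medL : ∀ z, nm z ≤ h ^ 2500 → 49 / 100 ≤ M.P (fun τ => m z - h ≤ T τ 0 z)
  low : ∀ z, nm z ≤ h ^ 2500 →
    M.P (fun τ => T τ 0 z ≤ M.E (fun τ => T τ 0 z) - sg h (nm z)) ≤ Real.exp (-h)
  var : ∀ z, nm z ≤ h ^ 2500 →
    M.E (fun τ => (T τ 0 z - M.E fun τ => T τ 0 z) ^ 2) ≤ sg h (nm z) ^ 2
  peierls : M.P (fun τ => ∃ (x y : V) (w : grid.Walk x y), nm x ≤ h ^ 3000 ∧ w.IsPath ∧
      h ^ 10 ≤ w.length ∧ (w.length : ℝ) ≤ h ^ 3000 ∧ (nHigh Q.th τ w : ℝ) < w.length / 2)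
      ≤ Real.exp (-h)
  tilt : ∀ (C : Finset Edge) (d : ℝ), (∀ e ∈ C, nm e.1 ≤ h ^ 4000) → 0 ≤ d → d ≤ 1 / 2 →
    ∃ J : M.Ω → M.Ω → ℝ, (∀ ω ω', 0 ≤ J ω ω') ∧ (∀ ω, ∑ ω', J ω ω' = 1) ∧
      (∀ ω ω', J ω ω' ≠ 0 → (∀ e, M.env ω' e ≤ M.env ω e) ∧
        ∀ e, e ∉ C → nm e.1 ≤ h ^ 4000 → M.env ω' e = M.env ω e) ∧
      (∀ (ω : M.Ω) (H : Finset Edge), H ⊆ C → (∀ e ∈ H, Q.th ≤ M.env ω e) →
        ∑ ω' ∈ univ.filter (fun ω' => ∑ e ∈ H, (M.env ω e - M.env ω' e)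
          < (Q.th - Q.tl) * (d * H.card / 4)), J ω ω' ≤ Real.exp (-(d * H.card / 16))) ∧
      (∀ k : ℕ, k * d ≤ Q.pl → Ex (fun ω' => if 2 < ∑ ω, J ω ω' then ∑ ω, J ω ω' else 0)
        ≤ 2 * (1 / 2) ^ k * Real.exp (Q.K * k ^ 2 * d ^ 2 * C.card))

/-- There are good models at all large scales. -/
def HasN (Q : Qn) (m : V → ℝ) : Prop := ∀ᶠ h : ℝ in atTop, ∃ (a : ℝ) (M : Mdl a h), GoodN Q m M

/-- The relation between the time constant `μ` and the medians `m`. -/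
structure MuM (μ : ℝ × ℝ → ℝ) (m : V → ℝ) : Prop where
  hom : ∀ (t : ℝ) (x : ℝ × ℝ), 0 ≤ t → μ (t • x) = t * μ x
  cont : Continuous μ
  lim : ∀ z : V, Tendsto (fun k : ℕ => m (k • z) / (k : ℝ)) atTop (𝓝 (μ (toR z)))

/-- Coordinates at a corner: `x = (dp G x) • v + (dp Y x) • e`. -/
structure Cor where
  G : ℝ × ℝ
  Y : ℝ × ℝ
  v : ℝ × ℝ
  e : ℝ × ℝ
  Gv : dp G v = 1
  Yv : dp Y v = 0
  Ge : dp G e = 0
  Ye : dp Y e = 1

/-- A lattice point near a point of the plane. -/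
noncomputable def rnd (x : ℝ × ℝ) : V := (⌊x.1⌋, ⌊x.2⌋)

theorem rnd_near (x : ℝ × ℝ) : rn (toR (rnd x) - x) ≤ 2 := by
  sorry

namespace Cor

variable (c : Cor)

/-- The two coordinates on the lattice. -/
noncomputable def g (x : V) : ℝ := dp c.G (toR x)

noncomputable def y (x : V) : ℝ := dp c.Y (toR x)

/-- The functional of the half plane. -/
noncomputable def f (x : V) : ℝ := c.g x + c.y x

/-- The lattice point near `α v + β e`. -/
noncomputable def rd (α β : ℝ) : V := rnd (α • c.v + β • c.e)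

/-- A constant. -/
noncomputable def C : ℝ := 2 * (1 + rn c.G + rn c.Y) * (1 + rn c.v + rn c.e)

/-- The mirrored corner. -/
noncomputable def flip : Cor where
  G := c.G
  Y := -c.Y
  v := c.v
  e := -c.e
  Gv := c.Gv
  Yv := by sorry
  Ge := by sorry
  Ye := by sorry

theorem flip_g (x : V) : c.flip.g x = c.g x := by
  sorry

theorem flip_y (x : V) : c.flip.y x = -c.y x := by
  sorry

theorem flip_C : c.flip.C = c.C := by
  sorry

theorem flip_rd (α β : ℝ) : c.flip.rd α β = c.rd α (-β) := by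
  sorry

theorem flip_flip : c.flip.flip = c := by
  sorry

theorem one_le_C : 1 ≤ c.C := by
  sorry

theorem two_le_C : 2 ≤ c.C := by
  sorry

theorem g_add (x z : V) : c.g (x + z) = c.g x + c.g z := by
  sorry

theorem y_add (x z : V) : c.y (x + z) = c.y x + c.y z := by
  sorry

theorem f_add (x z : V) : c.f (x + z) = c.f x + c.f z := by
  sorry

theorem g_sub (x z : V) : c.g (x - z) = c.g x - c.g z := by
  sorry

theorem y_sub (x z : V) : c.y (x - z) = c.y x - c.y z := by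
  sorry

theorem f_sub (x z : V) : c.f (x - z) = c.f x - c.f z := by
  sorry

theorem g_zero : c.g 0 = 0 := by
  sorry

theorem y_zero : c.y 0 = 0 := by
  sorry

theorem f_zero : c.f 0 = 0 := by
  sorry

theorem abs_g_le (x : V) : |c.g x| ≤ c.C * nm x := by
  sorry

theorem abs_y_le (x : V) : |c.y x| ≤ c.C * nm x := by
  sorry

theorem abs_f_le (x : V) : |c.f x| ≤ c.C * nm x := by
  sorry

theorem nm_le (x : V) : nm x ≤ c.C * (|c.g x| + |c.y x|) := by
  sorry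

theorem g_rd (α β : ℝ) : |c.g (c.rd α β) - α| ≤ c.C := by
  sorry

theorem y_rd (α β : ℝ) : |c.y (c.rd α β) - β| ≤ c.C := by
  sorry

theorem f_rd (α β : ℝ) : |c.f (c.rd α β) - (α + β)| ≤ c.C := by
  sorry

theorem nm_rd (α β : ℝ) : nm (c.rd α β) ≤ c.C * (|α| + |β| + 1) := by
  sorry

end Cor

/-- `v` is a corner of the limit shape, with the coordinates `c`. -/
structure IsCor (c : Cor) (μ : ℝ × ℝ → ℝ) : Prop where
  low : ∀ x, |dp c.G x| + |dp c.Y x| ≤ μ x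
  v : μ c.v = 1
  pl : ∀ ε : ℝ, 0 < ε → ∃ t : ℝ, 0 < t ∧ μ (c.v + t • c.e) ≤ 1 + (1 + ε) * t
  mi : ∀ ε : ℝ, 0 < ε → ∃ t : ℝ, 0 < t ∧ μ (c.v - t • c.e) ≤ 1 + (1 + ε) * t

theorem IsCor.flip {c : Cor} {μ : ℝ × ℝ → ℝ} (hc : IsCor c μ) : IsCor c.flip μ := by
  sorry

/-- The error at distance `r`. -/
noncomputable def er (h r : ℝ) : ℝ := h ^ 7 * √r + h ^ 12

/-- The lower bound for the passage times at scale `h` (overwhelming event). -/
def LT (μ : ℝ × ℝ → ℝ) (h : ℝ) (τ : Env) : Prop :=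
  ∀ x z : V, nm x ≤ h ^ 2400 → nm z ≤ h ^ 2400 → μ (toR (z - x)) ≤ T τ x z + er h (nm (z - x))

/-- `y` is reached from `x` by a walk inside `A` of cost at most `s`. -/
def Reach (A : Set Edge) (τ : Env) (x z : V) (s : ℝ) : Prop :=
  ∃ w : grid.Walk x z, (∀ e ∈ wedges w, e ∈ A) ∧ cost τ w ≤ s

/-- The lane from `x`, of length `r`, width `W`, margin `B`. -/
def lane (c : Cor) (x : V) (r W B : ℝ) : Set Edge :=
  edg {z | |c.y (z - x)| ≤ W ∧ -B ≤ c.g (z - x) ∧ c.g (z - x) ≤ r + B}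

/-- The half plane region (bounded). -/
def Rg (c : Cor) (h : ℝ) : Set Edge := edg {z | 0 ≤ c.f z ∧ nm z ≤ h ^ 1010}

/-- The running maximum of the excess of the medians in the direction `v`. -/
noncomputable def bb (c : Cor) (m : V → ℝ) (n : ℕ) : ℝ :=
  (Finset.range (n + 1)).sup' ⟨0, by simp⟩ fun l => max 1 (m (c.rd l 0) - l)

end Pool.Agent.W_1b8d5d_np
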