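import Pool.Agent.W_1b8d5d_np.Med1

/-!
MP_1b8d5d_pr, [NP]: products of functions of disjoint sets of edges.
-/

set_option autoImplicit false

namespace Pool.Agent.W_1b8d5d_np

open Finset Filter Topology
open Pool.Agent.W_1b8d5d_h85

variable {Q : Qn} {m : V → ℝ} {a h : ℝ} {M : Mdl a h} {ι : Type*}

theorem prod_indep (hM : GoodN Q m M) (s : Finset ι) (A : ι → Set Edge)
    (hA : ∀ i ∈ s, ∀ j ∈ s, i ≠ j → Disjoint (A i) (A j)) (hR : ∀ i ∈ s, ∀ e ∈ A i, nm e.1 ≤ h ^ 4000)
    (F : ι → Env → ℝ) (hF : ∀ i ∈ s, DependsOn (F i) (A i)) :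
    M.E (fun τ => ∏ i ∈ s, F i τ) = ∏ i ∈ s, M.E (F i) := by
  classical
  induction s using Finset.induction_on with
  | empty =>
    simp only [Finset.prod_empty]
    exact M.E_const 1
  | insert i s hi ih =>
    have h1 := ih (fun j hj k hk => hA j (mem_insert_of_mem hj) k (mem_insert_of_mem hk))
      (fun j hj => hR j (mem_insert_of_mem hj)) (fun j hj => hF j (mem_insert_of_mem hj))
    rw [Finset.prod_insert hi, ← h1]
    have h2 : M.E (fun τ => F i τ * ∏ j ∈ s, F j τ) =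
        M.E (F i) * M.E (fun τ => ∏ j ∈ s, F j τ) := by
      refine hM.indep (A i) (⋃ j ∈ s, A j) ?_ ?_ (F i) (fun τ => ∏ j ∈ s, F j τ)
        (hF i (mem_insert_self i s)) ?_
      · rw [Set.disjoint_iUnion₂_right]
        intro j hj
        exact hA i (mem_insert_self i s) j (mem_insert_of_mem hj) (fun h => hi (h ▸ hj))
      · intro e he
        rcases he with he | he
        · exact hR i (mem_insert_self i s) e he
        · obtain ⟨j, hj, he⟩ := Set.mem_iUnion₂.1 he
          exact hR j (mem_insert_of_mem hj) e he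
      · intro x y hxy
        refine Finset.prod_congr rfl fun j hj => ?_
        exact hF j (mem_insert_of_mem hj) fun e he => hxy e (Set.mem_iUnion₂.2 ⟨j, hj, he⟩)
    rw [← h2]
    refine M.E_congr fun τ _ => ?_
    rw [Finset.prod_insert hi]

open Classical in
private theorem Prod_ind (M : Mdl a h) (p : Env → Prop) (x y : ℝ) :
    M.E (fun τ => if p τ then x else y) = y + (x - y) * M.P p := by
  rw [M.P_def, ← M.E_mul_left, ← M.E_const y, ← M.E_add, M.E_const]
  refine M.E_congr fun τ _ => ?_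
  split_ifs <;> ring

/-- None of the independent events. -/
theorem none_indep (hM : GoodN Q m M) (s : Finset ι) (A : ι → Set Edge)
    (hA : ∀ i ∈ s, ∀ j ∈ s, i ≠ j → Disjoint (A i) (A j)) (hR : ∀ i ∈ s, ∀ e ∈ A i, nm e.1 ≤ h ^ 4000)
    (p : ι → Env → Prop) (hp : ∀ i ∈ s, DependsOn (p i) (A i)) (q : ℝ) (hq : ∀ i ∈ s, q ≤ M.P (p i)) (hq1 : q ≤ 1) :
    M.P (fun τ => ∀ i ∈ s, ¬ p i τ) ≤ (1 - q) ^ s.card := by
  classical
  have h1 := prod_indep hM s A hA hR (fun i τ => if p i τ then (0 : ℝ) else 1)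
    (fun i hi x y hxy => by
      have := hp i hi hxy
      simp only [this])
  have h2 : M.P (fun τ => ∀ i ∈ s, ¬ p i τ) =
      M.E (fun τ => ∏ i ∈ s, if p i τ then (0 : ℝ) else 1) := by
    rw [M.P_def]
    refine M.E_congr fun τ _ => ?_
    by_cases hall : ∀ i ∈ s, ¬ p i τ
    · rw [if_pos hall]
      symm
      exact Finset.prod_eq_one fun i hi => if_neg (hall i hi)
    · rw [if_neg hall]
      push Not at hall
      obtain ⟨i, hi, hpi⟩ := hall
      symm
      exact Finset.prod_eq_zero hi (if_pos hpi)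
  rw [h2, h1, ← Finset.prod_const]
  refine Finset.prod_le_prod (fun i _ => ?_) (fun i hi => ?_)
  · exact M.E_nonneg fun τ _ => by split_ifs <;> norm_num
  · rw [Prod_ind]
    have := hq i hi
    linarith

private theorem Prod_num : (51 / 20 : ℝ) ≤ (3 : ℝ) ^ (7 / 8 : ℝ) := by
  by_contra hcon
  push Not at hcon
  have h0 : (0 : ℝ) ≤ (3 : ℝ) ^ (7 / 8 : ℝ) := Real.rpow_nonneg (by norm_num) _
  have h1 : ((3 : ℝ) ^ (7 / 8 : ℝ)) ^ 8 < (51 / 20 : ℝ) ^ 8 := pow_lt_pow_left₀ hcon h0 (by norm_num)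
  have h2 : ((3 : ℝ) ^ (7 / 8 : ℝ)) ^ 8 = 3 ^ 7 := by
    rw [← Real.rpow_natCast, ← Real.rpow_mul (by norm_num)]
    have : (7 / 8 : ℝ) * ((8 : ℕ) : ℝ) = ((7 : ℕ) : ℝ) := by norm_num
    rw [this, Real.rpow_natCast]
  rw [h2] at h1
  norm_num at h1

open Classical in
/-- Few of the independent events. PROOF. `E ∏ 3 ^ (1 - 1_{p i}) ≤ (3 - 2 * 0.48) ^ s.card` and on the event the product is
`≥ 3 ^ (7 s.card / 8)`; `2.04 ≤ (4/5) * 3 ^ (7/8)`. -/
theorem few_indep (hM : GoodN Q m M) (s : Finset ι) (A : ι → Set Edge)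
    (hA : ∀ i ∈ s, ∀ j ∈ s, i ≠ j → Disjoint (A i) (A j)) (hR : ∀ i ∈ s, ∀ e ∈ A i, nm e.1 ≤ h ^ 4000)
    (p : ι → Env → Prop) (hp : ∀ i ∈ s, DependsOn (p i) (A i)) (hq : ∀ i ∈ s, 48 / 100 ≤ M.P (p i)) :
    M.P (fun τ => 8 * (s.filter fun i => p i τ).card ≤ s.card) ≤ (4 / 5) ^ s.card := by
  have h1 := prod_indep hM s A hA hR (fun i τ => if p i τ then (1 : ℝ) else 3)
    (fun i hi x y hxy => by
      have := hp i hi hxy
      simp only [this])
  set c : ℝ := (3 : ℝ) ^ (7 / 8 : ℝ) with hc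
  have hc0 : 51 / 20 ≤ c := Prod_num
  have hcpos : 0 < c := by linarith
  have h2 : M.E (fun τ => ∏ i ∈ s, if p i τ then (1 : ℝ) else 3) ≤ (51 / 25) ^ s.card := by
    rw [h1, ← Finset.prod_const]
    refine Finset.prod_le_prod (fun i _ => ?_) (fun i hi => ?_)
    · exact M.E_nonneg fun τ _ => by split_ifs <;> norm_num
    · rw [Prod_ind]
      have := hq i hi
      linarith
  have h3 : ∀ τ, 8 * (s.filter fun i => p i τ).card ≤ s.card →
      c ^ s.card ≤ ∏ i ∈ s, if p i τ then (1 : ℝ) else 3 := by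
    intro τ hτ
    have h4 : (∏ i ∈ s, if p i τ then (1 : ℝ) else 3) = 3 ^ (s.filter fun i => ¬ p i τ).card := by
      rw [Finset.prod_ite, Finset.prod_const_one, one_mul, Finset.prod_const]
    have h5 : (s.filter fun i => p i τ).card + (s.filter fun i => ¬ p i τ).card = s.card :=
      Finset.card_filter_add_card_filter_not _
    rw [h4, hc, ← Real.rpow_natCast, ← Real.rpow_natCast, ← Real.rpow_mul (by norm_num)]
    apply Real.rpow_le_rpow_of_exponent_le (by norm_num)
    have h6 : (8 : ℝ) * ((s.filter fun i => p i τ).card : ℝ) ≤ (s.card : ℝ) := by exact_mod_cast hτ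
    have h7 : ((s.filter fun i => p i τ).card : ℝ) + ((s.filter fun i => ¬ p i τ).card : ℝ) =
        (s.card : ℝ) := by exact_mod_cast h5
    linarith
  calc M.P (fun τ => 8 * (s.filter fun i => p i τ).card ≤ s.card)
      ≤ M.P (fun τ => c ^ s.card ≤ ∏ i ∈ s, if p i τ then (1 : ℝ) else 3) :=
        M.P_mono fun τ _ hτ => h3 τ hτ
    _ ≤ M.E (fun τ => ∏ i ∈ s, if p i τ then (1 : ℝ) else 3) / c ^ s.card := by
        refine M.markov (fun τ _ => ?_) (pow_pos hcpos _)
        exact Finset.prod_nonneg fun i _ => by split_ifs <;> norm_num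
    _ ≤ (51 / 25) ^ s.card / c ^ s.card := div_le_div_of_nonneg_right h2 (pow_pos hcpos _).le
    _ = (51 / 25 / c) ^ s.card := (div_pow _ _ _).symm
    _ ≤ (4 / 5) ^ s.card := by
        apply pow_le_pow_left₀ (by positivity)
        rw [div_le_iff₀ hcpos]
        linarith

/-- The upper tail of a sum of independent bounded variables. PROOF. `exp t ≤ 1 + t + t ^ 2` for `t ≤ 1`, exponential
Markov with `lam = s / (2 B ^ 2)`. -/
theorem sum_tail (hM : GoodN Q m M) (s : Finset ι) (A : ι → Set Edge)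
    (hA : ∀ i ∈ s, ∀ j ∈ s, i ≠ j → Disjoint (A i) (A j)) (hR : ∀ i ∈ s, ∀ e ∈ A i, nm e.1 ≤ h ^ 4000)
    (F : ι → Env → ℝ) (hF : ∀ i ∈ s, DependsOn (F i) (A i)) (B ρ t : ℝ) (hB : 0 < B)
    (h0 : ∀ i ∈ s, ∀ τ, Bd a h τ → 0 ≤ F i τ ∧ F i τ ≤ B) (hE : ∀ i ∈ s, M.E (F i) ≤ ρ) (ht : 0 ≤ t) (htB : t ≤ B) :
    M.P (fun τ => s.card * (ρ + t) ≤ ∑ i ∈ s, F i τ) ≤ Real.exp (-(s.card * t ^ 2 / (4 * B ^ 2))) := by
  set lam : ℝ := t / (2 * B ^ 2) with hlam
  have hl0 : 0 ≤ lam := by positivity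
  have hlB : lam * B ≤ 1 / 2 := by
    rw [hlam, div_mul_eq_mul_div, div_le_iff₀ (by positivity)]
    nlinarith
  have h1 := prod_indep hM s A hA hR (fun i τ => Real.exp (lam * F i τ))
    (fun i hi x y hxy => by
      have := hF i hi hxy
      simp only [this])
  have h2 : M.E (fun τ => ∏ i ∈ s, Real.exp (lam * F i τ)) ≤
      Real.exp (s.card * (lam * ρ + (lam * B) ^ 2)) := by
    rw [h1]
    calc ∏ i ∈ s, M.E (fun τ => Real.exp (lam * F i τ))
        ≤ ∏ i ∈ s, Real.exp (lam * ρ + (lam * B) ^ 2) := by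
          refine Finset.prod_le_prod (fun i _ => M.E_nonneg fun τ _ => (Real.exp_pos _).le)
            (fun i hi => ?_)
          have h3 : M.E (fun τ => Real.exp (lam * F i τ)) ≤
              M.E (fun τ => (1 + (lam * B) ^ 2) + lam * F i τ) := by
            refine M.E_mono fun τ hτ => ?_
            obtain ⟨hF0, hFB⟩ := h0 i hi τ hτ
            have hx0 : 0 ≤ lam * F i τ := mul_nonneg hl0 hF0
            have hxB : lam * F i τ ≤ lam * B := mul_le_mul_of_nonneg_left hFB hl0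
            have h4 := Real.abs_exp_sub_one_sub_id_le (x := lam * F i τ)
              (by rw [abs_of_nonneg hx0]; linarith)
            have h5 := (abs_le.1 h4).2
            have h6 : (lam * F i τ) ^ 2 ≤ (lam * B) ^ 2 := pow_le_pow_left₀ hx0 hxB 2
            linarith
          have h4 : M.E (fun τ => (1 + (lam * B) ^ 2) + lam * F i τ) =
              (1 + (lam * B) ^ 2) + lam * M.E (F i) := by
            rw [M.E_add (fun _ => 1 + (lam * B) ^ 2) (fun τ => lam * F i τ), M.E_const,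
              M.E_mul_left]
          have h5 := mul_le_mul_of_nonneg_left (hE i hi) hl0
          have h6 := Real.add_one_le_exp (lam * ρ + (lam * B) ^ 2)
          linarith
      _ = Real.exp (s.card * (lam * ρ + (lam * B) ^ 2)) := by
          rw [Finset.prod_const, ← Real.exp_nat_mul]
  calc M.P (fun τ => s.card * (ρ + t) ≤ ∑ i ∈ s, F i τ)
      ≤ M.P (fun τ => Real.exp (lam * (s.card * (ρ + t))) ≤ ∏ i ∈ s, Real.exp (lam * F i τ)) := by
        refine M.P_mono fun τ _ hτ => ?_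
        rw [← Real.exp_sum, ← Finset.mul_sum]
        exact Real.exp_le_exp.2 (mul_le_mul_of_nonneg_left hτ hl0)
    _ ≤ M.E (fun τ => ∏ i ∈ s, Real.exp (lam * F i τ)) / Real.exp (lam * (s.card * (ρ + t))) :=
        M.markov (fun τ _ => Finset.prod_nonneg fun i _ => (Real.exp_pos _).le) (Real.exp_pos _)
    _ ≤ Real.exp (s.card * (lam * ρ + (lam * B) ^ 2)) / Real.exp (lam * (s.card * (ρ + t))) :=
        div_le_div_of_nonneg_right h2 (Real.exp_pos _).le
    _ = Real.exp (-(s.card * t ^ 2 / (4 * B ^ 2))) := by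
        rw [← Real.exp_sub]
        congr 1
        rw [hlam]
        field_simp
        ring

end Pool.Agent.W_1b8d5d_np
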